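import Pool.Agent.Q210.HR.Graph

set_option autoImplicit false

/-! # The decks do not see the sign -/

namespace Pool.Agent.Q210.HR

open Finset

variable {s l p : ℕ}

/-! ## Tails -/

/-- Exchange the tails after position `c` of the strands `a` and `b`. -/
def tl (a b : Fin (s + 1)) (c : Fin (l + 1)) : Hv s (l + 1) p → Hv s (l + 1) p
  | Hv.st i q => if c < q then Hv.st (Equiv.swap a b i) q else Hv.st i q
  | v => v

theorem tl_tl (a b : Fin (s + 1)) (c : Fin (l + 1)) (v : Hv s (l + 1) p) :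
    tl a b c (tl a b c v) = v := by
  cases v with
  | st i q =>
    by_cases h : c < q
    · simp [tl, h]
    · simp [tl, h]
  | _ => rfl

/-- The tail exchange as a permutation. -/
def tlp (a b : Fin (s + 1)) (c : Fin (l + 1)) : Equiv.Perm (Hv s (l + 1) p) where
  toFun := tl a b c
  invFun := tl a b c
  left_inv := tl_tl a b c
  right_inv := tl_tl a b c

theorem tl_le (a b : Fin (s + 1)) {c q : Fin (l + 1)} (h : q ≤ c) (i : Fin (s + 1)) :
    tl a b c (Hv.st i q : Hv s (l + 1) p) = Hv.st i q := by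
  simp [tl, not_lt.2 h]

theorem tl_gt (a b : Fin (s + 1)) {c q : Fin (l + 1)} (h : c < q) (i : Fin (s + 1)) :
    tl a b c (Hv.st i q : Hv s (l + 1) p) = Hv.st (Equiv.swap a b i) q := by
  simp [tl, h]

theorem tl_ne (a b : Fin (s + 1)) (c q : Fin (l + 1)) (i : Fin (s + 1)) (ha : i ≠ a)
    (hb : i ≠ b) : tl a b c (Hv.st i q : Hv s (l + 1) p) = Hv.st i q := by
  by_cases h : c < q
  · rw [tl_gt a b h, Equiv.swap_apply_of_ne_of_ne ha hb]
  · exact tl_le a b (not_lt.1 h) i

theorem R.tl {σ : Equiv.Perm (Fin (s + 1))} {u v : Hv s (l + 1) p} (h : R σ u v)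
    (a b : Fin (s + 1)) (c : Fin (l + 1)) (hua : u ≠ Hv.st a c) (hub : u ≠ Hv.st b c) :
    R (σ * Equiv.swap a b) (HR.tl a b c u) (HR.tl a b c v) := by
  cases h with
  | strand i q q' h =>
    by_cases h1 : q' ≤ c
    · have h2 : q ≤ c := by
        rw [Fin.le_def] at h1 ⊢
        omega
      rw [tl_le a b h1, tl_le a b h2]
      exact R.strand _ _ _ h
    · have h1' := not_le.1 h1
      by_cases h2 : c < q
      · rw [tl_gt a b h1', tl_gt a b h2]
        exact R.strand _ _ _ h
      · have h3 : q = c := by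
          apply Fin.ext
          rw [Fin.lt_def] at h2 h1'
          omega
        subst h3
        have hia : i ≠ a := fun h4 => hua (by rw [h4])
        have hib : i ≠ b := fun h4 => hub (by rw [h4])
        rw [tl_ne a b _ _ i hia hib, tl_ne a b _ _ i hia hib]
        exact R.strand _ _ _ h
  | start i q hq α t h =>
    have h1 : q ≤ c := by
      rw [Fin.le_def]
      omega
    rw [tl_le a b h1]
    exact R.start _ _ hq _ _ h
  | port i q hq t h ht =>
    by_cases h1 : c < q
    · rw [tl_gt a b h1]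
      refine R.port _ _ hq _ ?_ ht
      rw [Equiv.Perm.mul_apply, Equiv.swap_apply_self, h]
    · have h3 : q = c := by
        apply Fin.ext
        have := c.isLt
        rw [Fin.lt_def] at h1
        omega
      subst h3
      have hia : i ≠ a := fun h4 => hua (by rw [h4])
      have hib : i ≠ b := fun h4 => hub (by rw [h4])
      rw [tl_ne a b _ _ i hia hib]
      refine R.port _ _ hq _ ?_ ht
      rw [Equiv.Perm.mul_apply, Equiv.swap_apply_of_ne_of_ne hia hib, h]
  | portE i q hq h =>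
    by_cases h1 : c < q
    · rw [tl_gt a b h1]
      refine R.portE _ _ hq ?_
      rw [Equiv.Perm.mul_apply, Equiv.swap_apply_self, h]
    · have h3 : q = c := by
        apply Fin.ext
        have := c.isLt
        rw [Fin.lt_def] at h1
        omega
      subst h3
      have hia : i ≠ a := fun h4 => hua (by rw [h4])
      have hib : i ≠ b := fun h4 => hub (by rw [h4])
      rw [tl_ne a b _ _ i hia hib]
      refine R.portE _ _ hq ?_
      rw [Equiv.Perm.mul_apply, Equiv.swap_apply_of_ne_of_ne hia hib, h]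
  | inner α t x y h => exact R.inner _ _ _ _ h
  | thr α t t' h => exact R.thr _ _ _ h
  | jump α α' h t t' ht ht' => exact R.jump _ _ h _ _ ht ht'
  | rail α t => exact R.rail _ _
  | exit α t ht => exact R.exit _ _ ht
  | qz t ht k hk => exact R.qz _ ht _ hk
  | zz k k' h => exact R.zz _ _ h
  | zt k hk α t ht => exact R.zt _ hk _ _ ht

/-- The set after the exchange. -/
def im (a b : Fin (s + 1)) (c : Fin (l + 1)) (S : Finset (Hv s (l + 1) p)) :
    Finset (Hv s (l + 1) p) :=
  S.map (tlp a b c).toEmbedding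

theorem mem_im (a b : Fin (s + 1)) (c : Fin (l + 1)) (S : Finset (Hv s (l + 1) p))
    (v : Hv s (l + 1) p) : v ∈ im a b c S ↔ tl a b c v ∈ S := by
  unfold im
  rw [Finset.mem_map_equiv]
  rfl

theorem tl_mem_im (a b : Fin (s + 1)) (c : Fin (l + 1)) (S : Finset (Hv s (l + 1) p))
    (v : Hv s (l + 1) p) : tl a b c v ∈ im a b c S ↔ v ∈ S := by
  rw [mem_im, tl_tl]

theorem im_im (a b : Fin (s + 1)) (c : Fin (l + 1)) (S : Finset (Hv s (l + 1) p)) :
    im a b c (im a b c S) = S := by
  ext v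
  rw [mem_im, tl_mem_im]

theorem card_im (a b : Fin (s + 1)) (c : Fin (l + 1)) (S : Finset (Hv s (l + 1) p)) :
    (im a b c S).card = S.card := by
  unfold im
  rw [Finset.card_map]

theorem mul_swap_swap (σ : Equiv.Perm (Fin (s + 1))) (a b : Fin (s + 1)) :
    σ * Equiv.swap a b * Equiv.swap a b = σ := by
  rw [mul_assoc, Equiv.swap_mul_self, mul_one]

/-- The induced subgraphs are isomorphic. -/
def imIso (σ : Equiv.Perm (Fin (s + 1))) (a b : Fin (s + 1)) (c : Fin (l + 1))
    (S : Finset (Hv s (l + 1) p)) (ha : Hv.st a c ∉ S) (hb : Hv.st b c ∉ S) :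
    (Gr σ).induce (S : Set (Hv s (l + 1) p)) ≃g
      (Gr (σ * Equiv.swap a b)).induce (im a b c S : Set (Hv s (l + 1) p)) where
  toEquiv := (tlp a b c).subtypeEquiv (fun v => by
    show v ∈ S ↔ tl a b c v ∈ im a b c S
    rw [tl_mem_im])
  map_rel_iff' := by
    have hf : ∀ (τ : Equiv.Perm (Fin (s + 1))) (T : Finset (Hv s (l + 1) p))
        (_ : Hv.st a c ∉ T) (_ : Hv.st b c ∉ T) (u v : Hv s (l + 1) p) (_ : u ∈ T) (_ : v ∈ T),
        (Gr τ).Adj u v → (Gr (τ * Equiv.swap a b)).Adj (tl a b c u) (tl a b c v) := by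
      intro τ T hTa hTb u v hu hv h
      rcases h with h | h
      · exact Or.inl (h.tl a b c (fun h1 => hTa (h1 ▸ hu)) (fun h1 => hTb (h1 ▸ hu)))
      · exact Or.inr (h.tl a b c (fun h1 => hTa (h1 ▸ hv)) (fun h1 => hTb (h1 ▸ hv)))
    have ha' : Hv.st a c ∉ im a b c S := by
      rw [mem_im, tl_le a b le_rfl]
      exact ha
    have hb' : Hv.st b c ∉ im a b c S := by
      rw [mem_im, tl_le a b le_rfl]
      exact hb
    rintro ⟨u, hu⟩ ⟨v, hv⟩
    constructor
    · intro h
      have h1 := hf _ (im a b c S) ha' hb' (tl a b c u) (tl a b c v)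
        ((tl_mem_im _ _ _ _ _).2 hu) ((tl_mem_im _ _ _ _ _).2 hv) h
      rw [mul_swap_swap, tl_tl, tl_tl] at h1
      exact h1
    · exact hf σ S ha hb u v hu hv

/-! ## The first position at which two strands are cut -/

/-- The strands cut at position `q`. -/
def cut (S : Finset (Hv s (l + 1) p)) (q : Fin (l + 1)) : Finset (Fin (s + 1)) :=
  univ.filter fun i => Hv.st i q ∉ S

theorem mem_cut (S : Finset (Hv s (l + 1) p)) (q : Fin (l + 1)) (i : Fin (s + 1)) :
    i ∈ cut S q ↔ Hv.st i q ∉ S := by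
  simp [cut]

/-- Positions at which two strands are cut. -/
def bad (S : Finset (Hv s (l + 1) p)) : Finset (Fin (l + 1)) :=
  univ.filter fun q => 1 < (cut S q).card

/-- The first such position. -/
def fp (S : Finset (Hv s (l + 1) p)) : Fin (l + 1) :=
  if h : (bad S).Nonempty then (bad S).min' h else 0

open Classical in
/-- Two elements of a set. -/
noncomputable def pr (T : Finset (Fin (s + 1))) : Fin (s + 1) × Fin (s + 1) :=
  if h : ∃ z : Fin (s + 1) × Fin (s + 1), z.1 ∈ T ∧ z.2 ∈ T ∧ z.1 ≠ z.2 then h.choose else (0, 0)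

theorem pr_spec {T : Finset (Fin (s + 1))} (h : 1 < T.card) :
    (pr T).1 ∈ T ∧ (pr T).2 ∈ T ∧ (pr T).1 ≠ (pr T).2 := by
  classical
  have h1 : ∃ z : Fin (s + 1) × Fin (s + 1), z.1 ∈ T ∧ z.2 ∈ T ∧ z.1 ≠ z.2 := by
    obtain ⟨a, ha, b, hb, hab⟩ := Finset.one_lt_card.1 h
    exact ⟨(a, b), ha, hb, hab⟩
  unfold pr
  rw [dif_pos h1]
  exact h1.choose_spec

theorem fp_mem {S : Finset (Hv s (l + 1) p)} (h : (bad S).Nonempty) : 1 < (cut S (fp S)).card := by
  have h1 : fp S ∈ bad S := by
    unfold fp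
    rw [dif_pos h]
    exact Finset.min'_mem _ _
  simpa [bad] using h1

theorem fp_le {S : Finset (Hv s (l + 1) p)} {q : Fin (l + 1)} (h : 1 < (cut S q).card) :
    fp S ≤ q := by
  have h1 : q ∈ bad S := by simpa [bad] using h
  unfold fp
  rw [dif_pos ⟨q, h1⟩]
  exact Finset.min'_le _ _ h1

theorem cut_im (a b : Fin (s + 1)) (S : Finset (Hv s (l + 1) p)) (c q : Fin (l + 1)) (h : q ≤ c) :
    cut (im a b c S) q = cut S q := by
  ext i
  rw [mem_cut, mem_cut, mem_im, tl_le a b h]

theorem fp_im (a b : Fin (s + 1)) {S : Finset (Hv s (l + 1) p)} (h : (bad S).Nonempty) :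
    fp (im a b (fp S) S) = fp S := by
  apply le_antisymm
  · apply fp_le
    rw [cut_im a b S _ _ le_rfl]
    exact fp_mem h
  · by_contra h1
    have h1' := not_le.1 h1
    have h2 : (bad (im a b (fp S) S)).Nonempty := by
      refine ⟨fp S, ?_⟩
      simp only [bad, mem_filter, mem_univ, true_and]
      rw [cut_im a b S _ _ le_rfl]
      exact fp_mem h
    have h3 := fp_mem h2
    rw [cut_im a b S _ _ h1'.le] at h3
    exact absurd (fp_le h3) h1

theorem bad_im (a b : Fin (s + 1)) {S : Finset (Hv s (l + 1) p)} (h : (bad S).Nonempty) :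
    (bad (im a b (fp S) S)).Nonempty := by
  refine ⟨fp S, ?_⟩
  simp only [bad, mem_filter, mem_univ, true_and]
  rw [cut_im a b S _ _ le_rfl]
  exact fp_mem h

/-- Small sets leave such a position. -/
theorem bad_nonempty (S : Finset (Hv s (l + 1) p)) (h : S.card < s * (l + 1)) :
    (bad S).Nonempty := by
  by_contra hne
  rw [Finset.not_nonempty_iff_eq_empty] at hne
  have h1 : ∀ q, (cut S q).card ≤ 1 := by
    intro q
    by_contra h2
    have h3 : q ∈ bad S := by simpa [bad] using h2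
    rw [hne] at h3
    simp at h3
  have h2 : ∀ q, s ≤ (univ.filter fun i => Hv.st i q ∈ S).card := by
    intro q
    have h3 := Finset.card_filter_add_card_filter_not (s := (univ : Finset (Fin (s + 1))))
      (fun i => Hv.st i q ∈ S)
    rw [Finset.card_univ, Fintype.card_fin] at h3
    have h4 := h1 q
    unfold cut at h4
    omega
  have h5 : (univ : Finset (Fin (l + 1))).sum (fun q => (univ.filter fun i => Hv.st i q ∈ S).card)
      ≤ S.card := by
    rw [← Finset.card_sigma]
    refine Finset.card_le_card_of_injOn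
      (fun z : (_ : Fin (l + 1)) × Fin (s + 1) => (Hv.st z.2 z.1 : Hv s (l + 1) p)) ?_ ?_
    · rintro ⟨q, i⟩ hz
      simpa using hz
    · rintro ⟨q, i⟩ _ ⟨q', i'⟩ _ h7
      simp only [Hv.st.injEq] at h7
      obtain ⟨rfl, rfl⟩ := h7
      rfl
  have h6 : s * (l + 1) ≤ (univ : Finset (Fin (l + 1))).sum
      (fun q => (univ.filter fun i => Hv.st i q ∈ S).card) := by
    calc s * (l + 1) = (univ : Finset (Fin (l + 1))).sum (fun _ => s) := by
          simp [mul_comm]
      _ ≤ _ := Finset.sum_le_sum fun q _ => h2 q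
  omega

/-! ## Counting induced subgraphs -/

open Classical in
/-- The number of `t`-sets inducing a copy of `X`. -/
noncomputable def cnt {V : Type} [Fintype V] (G : SimpleGraph V) (t : ℕ)
    (X : SimpleGraph (Fin t)) : ℤ :=
  ∑ S ∈ powersetCard t (univ : Finset V), if Nonempty (G.induce (S : Set V) ≃g X) then 1 else 0

/-- An isomorphism restricts to induced subgraphs. -/
def inducedIso {V W : Type} {G : SimpleGraph V} {H : SimpleGraph W} (φ : G ≃g H)
    (S : Finset V) : G.induce (S : Set V) ≃g H.induce (S.map φ.toEquiv.toEmbedding : Set W) where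
  toEquiv := φ.toEquiv.subtypeEquiv (fun v => by simp)
  map_rel_iff' := by
    rintro ⟨u, hu⟩ ⟨v, hv⟩
    exact φ.map_adj_iff

theorem cnt_iso {V W : Type} [Fintype V] [Fintype W] {G : SimpleGraph V} {H : SimpleGraph W}
    (φ : G ≃g H) (t : ℕ) (X : SimpleGraph (Fin t)) : cnt G t X = cnt H t X := by
  classical
  unfold cnt
  refine Finset.sum_bij (fun S _ => S.map φ.toEquiv.toEmbedding) ?_ ?_ ?_ ?_
  · intro S hS
    rw [mem_powersetCard] at hS ⊢
    exact ⟨subset_univ _, by rw [card_map]; exact hS.2⟩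
  · intro S _ T _ h
    exact Finset.map_injective _ h
  · intro T hT
    rw [mem_powersetCard] at hT
    refine ⟨T.map φ.symm.toEquiv.toEmbedding, ?_, ?_⟩
    · rw [mem_powersetCard]
      exact ⟨subset_univ _, by rw [card_map]; exact hT.2⟩
    · ext v
      simp only [Finset.mem_map_equiv]
      rw [show φ.symm.toEquiv.symm (φ.toEquiv.symm v) = v from φ.apply_symm_apply v]
  · intro S _
    congr 1
    apply propext
    constructor
    · rintro ⟨e⟩
      exact ⟨(inducedIso φ S).symm.trans e⟩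
    · rintro ⟨e⟩
      exact ⟨(inducedIso φ S).trans e⟩

/-- The signed number of induced copies vanishes. -/
theorem signed (t : ℕ) (ht : t < s * (l + 1)) (X : SimpleGraph (Fin t)) :
    ∑ σ : Equiv.Perm (Fin (s + 1)), (Equiv.Perm.sign σ : ℤ) *
      cnt (Gr σ : SimpleGraph (Hv s (l + 1) p)) t X = 0 := by
  classical
  unfold cnt
  simp only [Finset.mul_sum]
  rw [← Finset.sum_product']
  have hbad : ∀ S ∈ powersetCard t (univ : Finset (Hv s (l + 1) p)), (bad S).Nonempty := by
    intro S hS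
    rw [mem_powersetCard] at hS
    exact bad_nonempty S (by rw [hS.2]; exact ht)
  refine Finset.sum_involution (fun z _ =>
    (z.1 * Equiv.swap (pr (cut z.2 (fp z.2))).1 (pr (cut z.2 (fp z.2))).2,
      im (pr (cut z.2 (fp z.2))).1 (pr (cut z.2 (fp z.2))).2 (fp z.2) z.2)) ?_ ?_ ?_ ?_
  · rintro ⟨σ, S⟩ hz
    have hS := hbad S (mem_product.1 hz).2
    obtain ⟨h1, h2, h3⟩ := pr_spec (fp_mem hS)
    simp only
    set a := (pr (cut S (fp S))).1
    set b := (pr (cut S (fp S))).2
    have e := imIso σ a b (fp S) S ((mem_cut _ _ _).1 h1) ((mem_cut _ _ _).1 h2)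
    have h4 : Nonempty ((Gr (σ * Equiv.swap a b)).induce
        (im a b (fp S) S : Set (Hv s (l + 1) p)) ≃g X) ↔
        Nonempty ((Gr σ).induce (S : Set (Hv s (l + 1) p)) ≃g X) :=
      ⟨fun ⟨f⟩ => ⟨e.trans f⟩, fun ⟨f⟩ => ⟨e.symm.trans f⟩⟩
    rw [if_congr h4 rfl rfl, Equiv.Perm.sign_mul, Equiv.Perm.sign_swap h3]
    push_cast
    ring
  · rintro ⟨σ, S⟩ hz _ h
    have hS := hbad S (mem_product.1 hz).2
    obtain ⟨h1, h2, h3⟩ := pr_spec (fp_mem hS)
    have h5 := congrArg Prod.fst h
    simp only at h5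
    have h6 : Equiv.swap (pr (cut S (fp S))).1 (pr (cut S (fp S))).2 = 1 := by
      have := congrArg (fun z => σ⁻¹ * z) h5
      simpa using this
    have h7 := congrArg (fun z : Equiv.Perm (Fin (s + 1)) => z (pr (cut S (fp S))).1) h6
    simp only [Equiv.swap_apply_left, Equiv.Perm.one_apply] at h7
    exact h3 h7.symm
  · rintro ⟨σ, S⟩ hz
    rw [mem_product, mem_powersetCard] at hz ⊢
    refine ⟨mem_univ _, subset_univ _, ?_⟩
    simp only
    rw [card_im]
    exact hz.2.2
  · rintro ⟨σ, S⟩ hz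
    have hS := hbad S (mem_product.1 hz).2
    simp only
    rw [fp_im _ _ hS, cut_im _ _ S _ _ le_rfl, im_im, mul_swap_swap]

theorem gr_iso_of_sign {L : ℕ} (σ τ : Equiv.Perm (Fin (s + 1)))
    (h : Equiv.Perm.sign σ = Equiv.Perm.sign τ) :
    Nonempty ((Gr σ : SimpleGraph (Hv s L p)) ≃g (Gr τ : SimpleGraph (Hv s L p))) := by
  have h1 : τ⁻¹ * σ ∈ alternatingGroup (Fin (s + 1)) := by
    rw [Equiv.Perm.mem_alternatingGroup, Equiv.Perm.sign_mul, Equiv.Perm.sign_inv, h]
    exact Int.units_mul_self _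
  have e := actIso (L := L) (p := p) σ ⟨τ⁻¹ * σ, h1⟩
  have h2 : σ * ((⟨τ⁻¹ * σ, h1⟩ : Ev s)⁻¹ : Ev s).1 = τ := by
    show σ * (τ⁻¹ * σ)⁻¹ = τ
    rw [mul_inv_rev, inv_inv, mul_inv_cancel_left]
  rw [h2] at e
  exact ⟨e⟩

/-- Both signs give the same numbers of induced copies. -/
theorem cnt_eq (hs : 1 ≤ s) (t : ℕ) (ht : t < s * (l + 1)) (X : SimpleGraph (Fin t))
    (σ τ : Equiv.Perm (Fin (s + 1))) :
    cnt (Gr σ : SimpleGraph (Hv s (l + 1) p)) t X =
      cnt (Gr τ : SimpleGraph (Hv s (l + 1) p)) t X := by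
  have h01 : (0 : Fin (s + 1)) ≠ Fin.last s := by
    intro h1
    have := congrArg Fin.val h1
    simp only [Fin.val_zero, Fin.val_last] at this
    omega
  set ρ : Equiv.Perm (Fin (s + 1)) := Equiv.swap 0 (Fin.last s) with hρ
  have hsρ : Equiv.Perm.sign ρ = -1 := Equiv.Perm.sign_swap h01
  set A := cnt (Gr (1 : Equiv.Perm (Fin (s + 1))) : SimpleGraph (Hv s (l + 1) p)) t X with hA
  set B := cnt (Gr ρ : SimpleGraph (Hv s (l + 1) p)) t X with hB
  have hval : ∀ π : Equiv.Perm (Fin (s + 1)),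
      cnt (Gr π : SimpleGraph (Hv s (l + 1) p)) t X =
        if Equiv.Perm.sign π = 1 then A else B := by
    intro π
    split_ifs with h
    · obtain ⟨φ⟩ := gr_iso_of_sign (L := l + 1) (p := p) π 1 (by rw [h, Equiv.Perm.sign_one])
      exact cnt_iso φ t X
    · have h2 : Equiv.Perm.sign π = -1 := (Int.units_eq_one_or _).resolve_left h
      obtain ⟨φ⟩ := gr_iso_of_sign (L := l + 1) (p := p) π ρ (by rw [h2, hsρ])
      exact cnt_iso φ t X
  have hz := signed (p := p) t ht X
  have hsign : ∑ π : Equiv.Perm (Fin (s + 1)), (Equiv.Perm.sign π : ℤ) = 0 := by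
    have h1 : ∑ π : Equiv.Perm (Fin (s + 1)), (Equiv.Perm.sign π : ℤ) =
        ∑ π : Equiv.Perm (Fin (s + 1)), (Equiv.Perm.sign (π * ρ) : ℤ) :=
      (Equiv.sum_comp (Equiv.mulRight ρ) (fun π => (Equiv.Perm.sign π : ℤ))).symm
    have h2 : ∑ π : Equiv.Perm (Fin (s + 1)), (Equiv.Perm.sign (π * ρ) : ℤ) =
        - ∑ π : Equiv.Perm (Fin (s + 1)), (Equiv.Perm.sign π : ℤ) := by
      rw [← Finset.sum_neg_distrib]
      apply Finset.sum_congr rfl
      intro π _
      rw [Equiv.Perm.sign_mul, hsρ]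
      push_cast
      ring
    omega
  have h4 : ∑ π : Equiv.Perm (Fin (s + 1)),
      (if Equiv.Perm.sign π = 1 then A - B else 0) = 0 := by
    have h5 : ∀ π : Equiv.Perm (Fin (s + 1)), (if Equiv.Perm.sign π = 1 then A - B else 0) =
        (Equiv.Perm.sign π : ℤ) * cnt (Gr π : SimpleGraph (Hv s (l + 1) p)) t X -
          B * (Equiv.Perm.sign π : ℤ) := by
      intro π
      rw [hval]
      rcases Int.units_eq_one_or (Equiv.Perm.sign π) with h | h
      · rw [h]
        simp
      · rw [h]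
        simp
    simp only [h5]
    rw [Finset.sum_sub_distrib, ← Finset.mul_sum, hz, hsign]
    ring
  rw [← Finset.sum_filter, Finset.sum_const] at h4
  have h6 : (Finset.univ.filter
      (fun π : Equiv.Perm (Fin (s + 1)) => Equiv.Perm.sign π = 1)).card ≠ 0 := by
    rw [Finset.card_ne_zero]
    exact ⟨1, by simp⟩
  rw [nsmul_eq_mul] at h4
  have hAB : A = B := by
    rcases mul_eq_zero.1 h4 with h7 | h7
    · exact absurd (by exact_mod_cast h7) h6
    · linarith
  rw [hval, hval, hAB]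
  simp

end Pool.Agent.Q210.HR
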