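import Mathlib

set_option autoImplicit false

/-! # A family of graphs on strands, gadgets and a thread -/

namespace Pool.Agent.Q210.HR

open Finset

/-- Vertices of a gadget. -/
inductive Gv
  | t1 | t2 | t3 | m1 | m2 | m3 | b1 | b2 | b3
  deriving DecidableEq

instance : Fintype Gv where
  elems := {Gv.t1, Gv.t2, Gv.t3, Gv.m1, Gv.m2, Gv.m3, Gv.b1, Gv.b2, Gv.b3}
  complete x := by cases x <;> decide

open Gv in
/-- Edges of a gadget, oriented. -/
inductive Ga : Gv → Gv → Prop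
  | e1 : Ga t1 t2
  | e2 : Ga t2 t3
  | e3 : Ga b1 b2
  | e4 : Ga b2 b3
  | e5 : Ga t1 m1
  | e6 : Ga t2 m2
  | e7 : Ga t3 m3
  | e8 : Ga m1 b1
  | e9 : Ga m2 b2
  | e10 : Ga m3 b3

theorem Ga.ne {x y : Gv} (h : Ga x y) : x ≠ y := by
  cases h <;> simp

/-- The even permutations. -/
abbrev Ev (s : ℕ) : Type := alternatingGroup (Fin (s + 1))

/-- Vertices: strands, gadgets, ports, padding, end. -/
inductive Hv (s L p : ℕ) : Type
  | st (i : Fin (s + 1)) (q : Fin L)
  | gd (α : Ev s) (t : Fin (s + 1)) (x : Gv)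
  | Q (t : Fin (s + 1))
  | Z (k : Fin (p + 2))
  | E
  deriving DecidableEq

variable {s L p : ℕ}

/-- The vertices as a sum type. -/
def hvEquiv (s L p : ℕ) : Hv s L p ≃
    (Fin (s + 1) × Fin L) ⊕ ((Ev s × Fin (s + 1) × Gv) ⊕ (Fin (s + 1) ⊕ (Fin (p + 2) ⊕ Unit))) where
  toFun v := match v with
    | Hv.st i q => Sum.inl (i, q)
    | Hv.gd α t x => Sum.inr (Sum.inl (α, t, x))
    | Hv.Q t => Sum.inr (Sum.inr (Sum.inl t))
    | Hv.Z k => Sum.inr (Sum.inr (Sum.inr (Sum.inl k)))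
    | Hv.E => Sum.inr (Sum.inr (Sum.inr (Sum.inr ())))
  invFun v := match v with
    | Sum.inl (i, q) => Hv.st i q
    | Sum.inr (Sum.inl (α, t, x)) => Hv.gd α t x
    | Sum.inr (Sum.inr (Sum.inl t)) => Hv.Q t
    | Sum.inr (Sum.inr (Sum.inr (Sum.inl k))) => Hv.Z k
    | Sum.inr (Sum.inr (Sum.inr (Sum.inr ()))) => Hv.E
  left_inv v := by cases v <;> rfl
  right_inv v := by rcases v with ⟨_, _⟩ | ⟨_, _, _⟩ | _ | _ | _ <;> rfl

instance : Fintype (Hv s L p) := Fintype.ofEquiv _ (hvEquiv s L p).symm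

theorem card_gv : Fintype.card Gv = 9 := rfl

theorem card_hv (s L p : ℕ) : Fintype.card (Hv s L p) =
    (s + 1) * L + (Fintype.card (Ev s) * ((s + 1) * 9) + ((s + 1) + ((p + 2) + 1))) := by
  rw [Fintype.card_congr (hvEquiv s L p)]
  simp [card_gv]

/-- Oriented edges. -/
inductive R (σ : Equiv.Perm (Fin (s + 1))) : Hv s L p → Hv s L p → Prop
  | strand (i : Fin (s + 1)) (q q' : Fin L) (h : q.val + 1 = q'.val) : R σ (Hv.st i q) (Hv.st i q')
  | start (i : Fin (s + 1)) (q : Fin L) (hq : q.val = 0) (α : Ev s) (t : Fin (s + 1))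
      (h : α.1 t = i) : R σ (Hv.st i q) (Hv.gd α t Gv.t3)
  | port (i : Fin (s + 1)) (q : Fin L) (hq : q.val + 1 = L) (t : Fin (s + 1)) (h : σ i = t)
      (ht : t ≠ Fin.last s) : R σ (Hv.st i q) (Hv.Q t)
  | portE (i : Fin (s + 1)) (q : Fin L) (hq : q.val + 1 = L) (h : σ i = Fin.last s) :
      R σ (Hv.st i q) Hv.E
  | inner (α : Ev s) (t : Fin (s + 1)) (x y : Gv) (h : Ga x y) : R σ (Hv.gd α t x) (Hv.gd α t y)
  | thr (α : Ev s) (t t' : Fin (s + 1)) (h : t.val + 1 = t'.val) :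
      R σ (Hv.gd α t Gv.b3) (Hv.gd α t' Gv.t1)
  | jump (α α' : Ev s) (h : α ≠ α') (t t' : Fin (s + 1)) (ht : t = Fin.last s) (ht' : t' = 0) :
      R σ (Hv.gd α t Gv.b3) (Hv.gd α' t' Gv.t1)
  | rail (α : Ev s) (t : Fin (s + 1)) : R σ (Hv.gd α t Gv.b1) (Hv.Q t)
  | exit (α : Ev s) (t : Fin (s + 1)) (ht : t = Fin.last s) : R σ (Hv.gd α t Gv.b3) Hv.E
  | qz (t : Fin (s + 1)) (ht : t = Fin.last s) (k : Fin (p + 2)) (hk : k = 0) :
      R σ (Hv.Q t) (Hv.Z k)
  | zz (k k' : Fin (p + 2)) (h : k.val + 1 = k'.val) : R σ (Hv.Z k) (Hv.Z k')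
  | zt (k : Fin (p + 2)) (hk : k.val = p + 1) (α : Ev s) (t : Fin (s + 1)) (ht : t = 0) :
      R σ (Hv.Z k) (Hv.gd α t Gv.t1)

theorem R.ne {σ : Equiv.Perm (Fin (s + 1))} {u v : Hv s L p} (h : R σ u v) : u ≠ v := by
  cases h with
  | strand i q q' h =>
    intro h1
    injection h1 with _ h2
    rw [h2] at h
    omega
  | inner α t x y h =>
    intro h1
    injection h1 with _ _ h2
    exact h.ne h2
  | zz k k' h =>
    intro h1
    injection h1 with h2
    rw [h2] at h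
    omega
  | _ => simp

/-- The graphs. -/
def Gr (σ : Equiv.Perm (Fin (s + 1))) : SimpleGraph (Hv s L p) where
  Adj u v := R σ u v ∨ R σ v u
  symm := ⟨fun _ _ h => h.symm⟩
  loopless := ⟨fun _ h => by rcases h with h | h <;> exact h.ne rfl⟩

theorem gr_adj {σ : Equiv.Perm (Fin (s + 1))} {u v : Hv s L p} :
    (Gr σ).Adj u v ↔ R σ u v ∨ R σ v u := Iff.rfl

/-! ## Even permutations act -/

/-- The action of an even permutation. -/
def act (β : Ev s) : Hv s L p → Hv s L p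
  | Hv.st i q => Hv.st (β.1 i) q
  | Hv.gd α t x => Hv.gd (β * α) t x
  | Hv.Q t => Hv.Q t
  | Hv.Z k => Hv.Z k
  | Hv.E => Hv.E

theorem act_act (β γ : Ev s) (v : Hv s L p) : act β (act γ v) = act (β * γ) v := by
  cases v with
  | gd α t x => simp [act, mul_assoc]
  | _ => simp [act]

theorem act_one (v : Hv s L p) : act 1 v = v := by
  cases v <;> simp [act]

/-- The action as an equivalence. -/
def actEquiv (β : Ev s) : Hv s L p ≃ Hv s L p where
  toFun := act β
  invFun := act β⁻¹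
  left_inv v := by rw [act_act, inv_mul_cancel, act_one]
  right_inv v := by rw [act_act, mul_inv_cancel, act_one]

theorem R.act {σ : Equiv.Perm (Fin (s + 1))} {u v : Hv s L p} (β : Ev s) (h : R σ u v) :
    R (σ * (β⁻¹ : Ev s).1) (HR.act β u) (HR.act β v) := by
  have hb : ∀ i, (σ * (β⁻¹ : Ev s).1) (β.1 i) = σ i := by
    intro i
    show σ ((β.1)⁻¹ (β.1 i)) = σ i
    congr 1
    exact β.1.symm_apply_apply i
  cases h with
  | strand i q q' h => exact R.strand _ _ _ h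
  | start i q hq α t h => exact R.start _ _ hq _ _ (by rw [← h]; rfl)
  | port i q hq t h ht => exact R.port _ _ hq _ (by rw [hb, h]) ht
  | portE i q hq h => exact R.portE _ _ hq (by rw [hb, h])
  | inner α t x y h => exact R.inner _ _ _ _ h
  | thr α t t' h => exact R.thr _ _ _ h
  | jump α α' h t t' ht ht' => exact R.jump _ _ (fun h1 => h (mul_left_cancel h1)) _ _ ht ht'
  | rail α t => exact R.rail _ _
  | exit α t ht => exact R.exit _ _ ht
  | qz t ht k hk => exact R.qz _ ht _ hk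
  | zz k k' h => exact R.zz _ _ h
  | zt k hk α t ht => exact R.zt _ hk _ _ ht

/-- Even permutations give isomorphic graphs. -/
def actIso (σ : Equiv.Perm (Fin (s + 1))) (β : Ev s) :
    (Gr σ : SimpleGraph (Hv s L p)) ≃g (Gr (σ * (β⁻¹ : Ev s).1) : SimpleGraph (Hv s L p)) where
  toEquiv := actEquiv β
  map_rel_iff' := by
    have hf : ∀ (τ : Equiv.Perm (Fin (s + 1))) (γ : Ev s) (u v : Hv s L p),
        (Gr τ).Adj u v → (Gr (τ * (γ⁻¹ : Ev s).1)).Adj (act γ u) (act γ v) := by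
      intro τ γ u v h
      rcases h with h | h
      · exact Or.inl (h.act γ)
      · exact Or.inr (h.act γ)
    intro u v
    constructor
    · intro h
      have h1 := hf _ β⁻¹ _ _ h
      have h2 : σ * (β⁻¹ : Ev s).1 * ((β⁻¹)⁻¹ : Ev s).1 = σ := by
        rw [inv_inv, mul_assoc]
        have : ((β⁻¹ : Ev s).1 * β.1) = 1 := by
          show (β.1)⁻¹ * β.1 = 1
          exact inv_mul_cancel _
        rw [this, mul_one]
      rw [h2] at h1
      have h3 : ∀ w : Hv s L p, act β⁻¹ (actEquiv β w) = w := (actEquiv β).left_inv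
      rw [h3, h3] at h1
      exact h1
    · exact hf _ β _ _

end Pool.Agent.Q210.HR
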