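import Pool.Agent.Q210.HR.Graph

set_option autoImplicit false

/-! # A Hamilton cycle for one sign -/

namespace Pool.Agent.Q210.HR

open Finset

/-! ## Hamilton paths of vertex sets -/

section hp

variable {V : Type} [DecidableEq V] {G : SimpleGraph V}

/-- `G` has a path from `a` to `b` with vertex set `S`. -/
def HP (G : SimpleGraph V) (S : Finset V) (a b : V) : Prop :=
  ∃ l : List V, l.Nodup ∧ l.IsChain G.Adj ∧ l.toFinset = S ∧ l.head? = some a ∧
    l.getLast? = some b

theorem HP.single (a : V) : HP G {a} a a :=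
  ⟨[a], by simp, by simp, by simp, rfl, rfl⟩

theorem HP.append {S T : Finset V} {a b c d : V} (h1 : HP G S a b) (h2 : HP G T c d)
    (hbc : G.Adj b c) (hd : Disjoint S T) : HP G (S ∪ T) a d := by
  obtain ⟨l, n1, c1, s1, a1, b1⟩ := h1
  obtain ⟨m, n2, c2, s2, a2, b2⟩ := h2
  refine ⟨l ++ m, ?_, ?_, ?_, ?_, ?_⟩
  · rw [List.nodup_append]
    refine ⟨n1, n2, ?_⟩
    intro x hx y hy hxy
    subst hxy
    have hx' : x ∈ S := by rw [← s1]; simpa using hx
    have hy' : x ∈ T := by rw [← s2]; simpa using hy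
    exact Finset.disjoint_left.1 hd hx' hy'
  · rw [List.isChain_append]
    refine ⟨c1, c2, ?_⟩
    intro x hx y hy
    rw [b1] at hx
    rw [a2] at hy
    simp only [Option.mem_def, Option.some.injEq] at hx hy
    rw [← hx, ← hy]
    exact hbc
  · rw [List.toFinset_append, s1, s2]
  · rw [List.head?_append, a1]
    rfl
  · rw [List.getLast?_append, b2]
    rfl

theorem HP.reverse {S : Finset V} {a b : V} (h : HP G S a b) : HP G S b a := by
  obtain ⟨l, n1, c1, s1, a1, b1⟩ := h
  refine ⟨l.reverse, ?_, ?_, ?_, ?_, ?_⟩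
  · rwa [List.nodup_reverse]
  · rw [List.isChain_reverse]
    exact c1.imp fun _ _ h => h.symm
  · rw [List.toFinset_reverse, s1]
  · rw [List.head?_reverse, b1]
  · rw [List.getLast?_reverse, a1]

theorem HP.foldFin : ∀ (n : ℕ) (S : Fin (n + 1) → Finset V) (a b : Fin (n + 1) → V)
    (_ : ∀ i, HP G (S i) (a i) (b i)) (_ : ∀ i j, i ≠ j → Disjoint (S i) (S j))
    (_ : ∀ i j : Fin (n + 1), i.val + 1 = j.val → G.Adj (b i) (a j)),
    HP G (univ.biUnion S) (a 0) (b (Fin.last n)) := by
  intro n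
  induction n with
  | zero =>
    intro S a b hp hd hadj
    have h1 : (univ : Finset (Fin 1)).biUnion S = S 0 := by
      ext x
      simp
    have h2 : Fin.last 0 = 0 := rfl
    rw [h1, h2]
    exact hp 0
  | succ n ih =>
    intro S a b hp hd hadj
    have h1 := ih (fun i => S i.castSucc) (fun i => a i.castSucc) (fun i => b i.castSucc)
      (fun i => hp _) (fun i j hij => hd _ _ (by simpa using hij))
      (fun i j hij => hadj _ _ (by simpa using hij))
    have h2 := h1.append (hp (Fin.last (n + 1))) (hadj _ _ (by simp)) ?_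
    · have h3 : (univ : Finset (Fin (n + 2))).biUnion S =
          (univ.biUnion fun i : Fin (n + 1) => S i.castSucc) ∪ S (Fin.last (n + 1)) := by
        ext x
        simp only [mem_biUnion, mem_univ, true_and, mem_union]
        constructor
        · rintro ⟨i, hi⟩
          induction i using Fin.lastCases with
          | last => exact Or.inr hi
          | cast i => exact Or.inl ⟨i, hi⟩
        · rintro (⟨i, hi⟩ | hi)
          · exact ⟨_, hi⟩
          · exact ⟨_, hi⟩
      rw [h3]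
      exact h2
    · rw [Finset.disjoint_biUnion_left]
      intro i _
      exact hd _ _ (Fin.castSucc_lt_last i).ne

theorem contained_of_hp [Fintype V] {a b : V} (h : HP G univ a b) (hba : G.Adj b a) (n : ℕ)
    (hn : Fintype.card V = n) : (SimpleGraph.cycleGraph n).IsContained G := by
  obtain ⟨l, n1, c1, s1, a1, b1⟩ := h
  have hlen : l.length = n := by
    rw [← List.toFinset_card_of_nodup n1, s1, Finset.card_univ, hn]
  have h0 : 0 < n := by
    rw [← hn]
    exact Fintype.card_pos_iff.2 ⟨a⟩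
  have hchain := List.isChain_iff_getElem.1 c1
  have ha : l[0]'(by omega) = a := by
    have := List.head?_eq_getElem? (l := l)
    rw [a1] at this
    rw [List.getElem?_eq_getElem (by omega)] at this
    exact (Option.some.inj this).symm
  have hb : l[n - 1]'(by omega) = b := by
    have := List.getLast?_eq_getElem? (l := l)
    rw [b1, hlen] at this
    rw [List.getElem?_eq_getElem (by omega)] at this
    exact (Option.some.inj this).symm
  let f : Fin n → V := fun i => l[i.val]'(by rw [hlen]; exact i.isLt)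
  have hstep : ∀ u v : Fin n, (u - v).val = 1 → G.Adj (f u) (f v) := by
    intro u v huv
    have h3 : (u - v).val = (n - v.val + u.val) % n := by
      rw [Fin.sub_def]
    rw [h3] at huv
    have hu := u.isLt
    have hv := v.isLt
    by_cases hle : v.val ≤ u.val
    · have h4 : n - v.val + u.val = (u.val - v.val) + n := by omega
      rw [h4, Nat.add_mod_right, Nat.mod_eq_of_lt (by omega)] at huv
      have h5 : u.val = v.val + 1 := by omega
      show G.Adj (l[u.val]'(by omega)) (l[v.val]'(by omega))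
      simp only [h5]
      exact (hchain v.val (by omega)).symm
    · rw [Nat.mod_eq_of_lt (by omega)] at huv
      have h5 : u.val = 0 := by omega
      have h6 : v.val = n - 1 := by omega
      show G.Adj (l[u.val]'(by omega)) (l[v.val]'(by omega))
      simp only [h5, h6]
      rw [ha, hb]
      exact hba.symm
  have hf : Function.Injective f := by
    intro u v huv
    exact Fin.ext ((List.Nodup.getElem_inj_iff n1).1 huv)
  refine ⟨⟨⟨f, ?_⟩, hf⟩⟩
  intro u v huv
  rw [SimpleGraph.cycleGraph_adj'] at huv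
  rcases huv with h | h
  · exact hstep u v h
  · exact (hstep v u h).symm

end hp

/-! ## The Hamilton cycle -/

section cycle

open Gv

variable {s l p : ℕ}

theorem hp_strand (σ : Equiv.Perm (Fin (s + 1))) (i : Fin (s + 1)) :
    HP (Gr σ : SimpleGraph (Hv s (l + 1) p)) (univ.image (Hv.st i)) (Hv.st i (Fin.last l))
      (Hv.st i 0) := by
  have h := HP.foldFin (G := (Gr σ : SimpleGraph (Hv s (l + 1) p))) l
    (fun q => {Hv.st i q}) (fun q => Hv.st i q) (fun q => Hv.st i q) (fun q => HP.single _)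
    (fun q q' hq => by simpa using hq) (fun q q' hq => Or.inl (R.strand _ _ _ hq))
  have h2 : (univ : Finset (Fin (l + 1))).biUnion
      (fun q => ({Hv.st i q} : Finset (Hv s (l + 1) p))) = univ.image (Hv.st i) := by
    ext v
    simp [eq_comm]
  rw [h2] at h
  exact h.reverse

theorem hp_rail {L : ℕ} (σ : Equiv.Perm (Fin (s + 1))) (α : Ev s) (t : Fin (s + 1)) :
    HP (Gr σ : SimpleGraph (Hv s L p)) (univ.image (Hv.gd α t)) (Hv.gd α t t3)
      (Hv.gd α t b1) := by
  refine ⟨[Hv.gd α t t3, Hv.gd α t m3, Hv.gd α t b3, Hv.gd α t b2, Hv.gd α t m2, Hv.gd α t t2,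
    Hv.gd α t t1, Hv.gd α t m1, Hv.gd α t b1], by simp, ?_, ?_, rfl, rfl⟩
  · simp only [List.isChain_cons_cons, List.isChain_singleton, and_true]
    exact ⟨Or.inl (R.inner _ _ _ _ Ga.e7), Or.inl (R.inner _ _ _ _ Ga.e10),
      Or.inr (R.inner _ _ _ _ Ga.e4), Or.inr (R.inner _ _ _ _ Ga.e9),
      Or.inr (R.inner _ _ _ _ Ga.e6), Or.inr (R.inner _ _ _ _ Ga.e1),
      Or.inl (R.inner _ _ _ _ Ga.e5), Or.inl (R.inner _ _ _ _ Ga.e8)⟩
  · ext v
    simp only [List.mem_toFinset, List.mem_cons, List.not_mem_nil, or_false, mem_image, mem_univ,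
      true_and]
    constructor
    · rintro (rfl | rfl | rfl | rfl | rfl | rfl | rfl | rfl | rfl) <;> exact ⟨_, rfl⟩
    · rintro ⟨x, rfl⟩
      cases x <;> simp

theorem hp_thread {L : ℕ} (σ : Equiv.Perm (Fin (s + 1))) (α : Ev s) (t : Fin (s + 1)) :
    HP (Gr σ : SimpleGraph (Hv s L p)) (univ.image (Hv.gd α t)) (Hv.gd α t t1)
      (Hv.gd α t b3) := by
  refine ⟨[Hv.gd α t t1, Hv.gd α t m1, Hv.gd α t b1, Hv.gd α t b2, Hv.gd α t m2, Hv.gd α t t2,
    Hv.gd α t t3, Hv.gd α t m3, Hv.gd α t b3], by simp, ?_, ?_, rfl, rfl⟩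
  · simp only [List.isChain_cons_cons, List.isChain_singleton, and_true]
    exact ⟨Or.inl (R.inner _ _ _ _ Ga.e5), Or.inl (R.inner _ _ _ _ Ga.e8),
      Or.inl (R.inner _ _ _ _ Ga.e3), Or.inr (R.inner _ _ _ _ Ga.e9),
      Or.inr (R.inner _ _ _ _ Ga.e6), Or.inl (R.inner _ _ _ _ Ga.e2),
      Or.inl (R.inner _ _ _ _ Ga.e7), Or.inl (R.inner _ _ _ _ Ga.e10)⟩
  · ext v
    simp only [List.mem_toFinset, List.mem_cons, List.not_mem_nil, or_false, mem_image, mem_univ,
      true_and]
    constructor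
    · rintro (rfl | rfl | rfl | rfl | rfl | rfl | rfl | rfl | rfl) <;> exact ⟨_, rfl⟩
    · rintro ⟨x, rfl⟩
      cases x <;> simp

/-- The vertices of a block. -/
def blk {L : ℕ} (α : Ev s) : Finset (Hv s L p) :=
  univ.biUnion fun t => univ.image (Hv.gd α t)

theorem mem_blk {L : ℕ} (α : Ev s) (v : Hv s L p) : v ∈ blk α ↔ ∃ t x, v = Hv.gd α t x := by
  simp [blk, eq_comm]

theorem hp_block {L : ℕ} (σ : Equiv.Perm (Fin (s + 1))) (α : Ev s) :
    HP (Gr σ : SimpleGraph (Hv s L p)) (blk α) (Hv.gd α 0 t1) (Hv.gd α (Fin.last s) b3) := by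
  refine HP.foldFin s (fun t => univ.image (Hv.gd α t)) (fun t => Hv.gd α t t1)
    (fun t => Hv.gd α t b3) (fun t => hp_thread σ α t) ?_
    (fun t t' ht => Or.inl (R.thr _ _ _ ht))
  intro i j hij
  rw [Finset.disjoint_left]
  intro v hv hv'
  simp only [mem_image, mem_univ, true_and] at hv hv'
  obtain ⟨x, rfl⟩ := hv
  obtain ⟨y, hy⟩ := hv'
  injection hy with _ h2
  exact hij h2.symm

theorem hp_blocks {L : ℕ} (σ : Equiv.Perm (Fin (s + 1))) (hs : 2 ≤ s) :
    ∃ α β : Ev s, HP (Gr σ : SimpleGraph (Hv s L p))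
      ((univ.filter (· ≠ (1 : Ev s))).biUnion blk) (Hv.gd α 0 t1) (Hv.gd β (Fin.last s) b3) := by
  classical
  -- enumerate the nontrivial even permutations
  have hne : ∃ c : Ev s, c ≠ 1 := by
    have h01 : (⟨0, by omega⟩ : Fin (s + 1)) ≠ ⟨1, by omega⟩ := by simp
    have h02 : (⟨0, by omega⟩ : Fin (s + 1)) ≠ ⟨2, by omega⟩ := by simp
    have h12 : (⟨1, by omega⟩ : Fin (s + 1)) ≠ ⟨2, by omega⟩ := by simp
    refine ⟨⟨Equiv.swap ⟨0, by omega⟩ ⟨1, by omega⟩ * Equiv.swap ⟨1, by omega⟩ ⟨2, by omega⟩, ?_⟩,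
      ?_⟩
    · rw [Equiv.Perm.mem_alternatingGroup, Equiv.Perm.sign_mul, Equiv.Perm.sign_swap h01,
        Equiv.Perm.sign_swap h12]
      rfl
    · intro h
      have h1 := congrArg (fun z : Ev s => z.1 ⟨2, by omega⟩) h
      simp only [Equiv.Perm.mul_apply, Equiv.swap_apply_right] at h1
      exact h02 h1
  obtain ⟨c, hc⟩ := hne
  obtain ⟨m, hm⟩ : ∃ m, Fintype.card {α : Ev s // α ≠ 1} = m + 1 := by
    have : 0 < Fintype.card {α : Ev s // α ≠ 1} := Fintype.card_pos_iff.2 ⟨⟨c, hc⟩⟩
    exact ⟨_, (Nat.succ_pred_eq_of_pos this).symm⟩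
  let e : Fin (m + 1) ≃ {α : Ev s // α ≠ 1} := (Fintype.equivFinOfCardEq hm).symm
  refine ⟨(e 0).1, (e (Fin.last m)).1, ?_⟩
  have h := HP.foldFin (G := (Gr σ : SimpleGraph (Hv s L p))) m (fun i => blk (e i).1)
    (fun i => Hv.gd (e i).1 0 t1) (fun i => Hv.gd (e i).1 (Fin.last s) b3)
    (fun i => hp_block σ _) ?_ ?_
  · have h2 : (univ.filter (· ≠ (1 : Ev s))).biUnion (blk (p := p) (L := L)) =
        univ.biUnion (fun i => blk (e i).1) := by
      ext v
      simp only [mem_biUnion, mem_filter, mem_univ, true_and]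
      constructor
      · rintro ⟨α, hα, hv⟩
        exact ⟨e.symm ⟨α, hα⟩, by rwa [Equiv.apply_symm_apply]⟩
      · rintro ⟨i, hi⟩
        exact ⟨_, (e i).2, hi⟩
    rw [h2]
    exact h
  · intro i j hij
    rw [Finset.disjoint_left]
    intro v hv hv'
    rw [mem_blk] at hv hv'
    obtain ⟨t, x, rfl⟩ := hv
    obtain ⟨t', y, hy⟩ := hv'
    injection hy with h1
    exact hij (e.injective (Subtype.ext h1))
  · intro i j hij
    refine Or.inl (R.jump _ _ ?_ _ _ rfl rfl)
    intro h1
    have := e.injective (Subtype.ext h1)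
    rw [this] at hij
    omega

/-- The permutation whose graph has a Hamilton cycle. -/
def rot (s : ℕ) : Equiv.Perm (Fin (s + 1)) := (finRotate (s + 1))⁻¹

theorem rot_zero : rot s 0 = Fin.last s := by
  have h : finRotate (s + 1) (Fin.last s) = 0 := finRotate_last
  rw [← h]
  exact (finRotate (s + 1)).symm_apply_apply _

theorem rot_succ (i j : Fin (s + 1)) (hij : i.val + 1 = j.val) : rot s j = i := by
  have h1 : finRotate (s + 1) i = j := by
    have h2 : i.val < s := by
      have := j.isLt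
      omega
    have h3 := finRotate_of_lt h2
    apply Fin.ext
    have h4 : (finRotate (s + 1) i).val = i.val + 1 := by
      have h5 : i = ⟨i.val, i.isLt⟩ := rfl
      rw [h5]
      rw [h3]
    omega
  rw [← h1]
  exact (finRotate (s + 1)).symm_apply_apply _

/-- The vertices of a segment. -/
def sg (i : Fin (s + 1)) : Finset (Hv s (l + 1) p) :=
  (univ.image (Hv.st i) ∪ univ.image (Hv.gd 1 i)) ∪ {Hv.Q i}

theorem hp_seg (σ : Equiv.Perm (Fin (s + 1))) (i : Fin (s + 1)) :
    HP (Gr σ : SimpleGraph (Hv s (l + 1) p)) (sg i) (Hv.st i (Fin.last l)) (Hv.Q i) := by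
  refine ((hp_strand σ i).append (hp_rail σ 1 i) ?_ ?_).append (HP.single _) ?_ ?_
  · exact Or.inl (R.start _ _ rfl _ _ rfl)
  · rw [Finset.disjoint_left]
    intro v hv hv'
    simp only [mem_image, mem_univ, true_and] at hv hv'
    obtain ⟨x, rfl⟩ := hv
    obtain ⟨y, hy⟩ := hv'
    simp at hy
  · exact Or.inl (R.rail _ _)
  · simp

theorem hp_segs : HP (Gr (rot s) : SimpleGraph (Hv s (l + 1) p)) (univ.biUnion sg)
    (Hv.st 0 (Fin.last l)) (Hv.Q (Fin.last s)) := by
  refine HP.foldFin s sg (fun i => Hv.st i (Fin.last l)) (fun i => Hv.Q i)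
    (fun i => hp_seg _ i) ?_ ?_
  · intro i j hij
    rw [Finset.disjoint_left]
    intro v hv hv'
    simp only [sg, mem_image, mem_univ, true_and, mem_union, mem_singleton] at hv hv'
    rcases hv with (⟨x, rfl⟩ | ⟨x, rfl⟩) | rfl
    · simp [hij.symm] at hv'
    · simp [hij.symm] at hv'
    · simp [hij] at hv'
  · intro i j hij
    refine Or.inr (R.port _ _ (by simp) _ (rot_succ i j hij) ?_)
    intro h
    rw [h] at hij
    have := j.isLt
    simp only [Fin.val_last] at hij
    omega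

theorem hp_pad {L : ℕ} (σ : Equiv.Perm (Fin (s + 1))) :
    HP (Gr σ : SimpleGraph (Hv s L p)) (univ.image Hv.Z) (Hv.Z 0) (Hv.Z (Fin.last (p + 1))) := by
  have h := HP.foldFin (G := (Gr σ : SimpleGraph (Hv s L p))) (p + 1)
    (fun q => {Hv.Z q}) (fun q => Hv.Z q) (fun q => Hv.Z q) (fun q => HP.single _)
    (fun q q' hq => by simpa using hq) (fun q q' hq => Or.inl (R.zz _ _ hq))
  have h2 : (univ : Finset (Fin (p + 2))).biUnion
      (fun q => ({Hv.Z q} : Finset (Hv s L p))) = univ.image Hv.Z := by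
    ext v
    simp [eq_comm]
  rw [h2] at h
  exact h

/-- The Hamilton cycle. -/
theorem ham (hs : 2 ≤ s) (n : ℕ) (hn : Fintype.card (Hv s (l + 1) p) = n) :
    (SimpleGraph.cycleGraph n).IsContained (Gr (rot s) : SimpleGraph (Hv s (l + 1) p)) := by
  obtain ⟨α, β, hb⟩ := hp_blocks (p := p) (L := l + 1) (rot s) hs
  have h1 := hp_segs (s := s) (l := l) (p := p)
  have h2 := h1.append (hp_pad (rot s)) (Or.inl (R.qz _ rfl _ rfl)) (by
    rw [Finset.disjoint_left]
    intro v hv hv'
    simp only [sg, mem_biUnion, mem_image, mem_univ, true_and, mem_union, mem_singleton] at hv hv'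
    obtain ⟨k, rfl⟩ := hv'
    simp at hv)
  have h3 := h2.append hb (Or.inl (R.zt _ (by simp) _ _ rfl)) (by
    rw [Finset.disjoint_left]
    intro v hv hv'
    simp only [mem_biUnion, mem_filter, mem_univ, true_and, mem_blk] at hv'
    obtain ⟨γ, hγ, t, x, rfl⟩ := hv'
    simp only [sg, mem_biUnion, mem_image, mem_univ, true_and, mem_union, mem_singleton] at hv
    rcases hv with ⟨i, (⟨q, h⟩ | ⟨q, h⟩) | h⟩ | ⟨k, h⟩
    · simp at h
    · injection h with h4
      exact hγ h4.symm
    · simp at h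
    · simp at h)
  have h4 := h3.append (HP.single Hv.E) (Or.inl (R.exit _ _ rfl)) (by
    simp only [Finset.disjoint_singleton_right, mem_union, not_or]
    refine ⟨⟨?_, ?_⟩, ?_⟩
    · simp [sg]
    · simp
    · simp only [mem_biUnion, mem_blk]
      rintro ⟨_, _, t, x, h⟩
      simp at h)
  have hall : (univ.biUnion sg ∪ univ.image Hv.Z ∪
      (univ.filter (· ≠ (1 : Ev s))).biUnion blk ∪ {Hv.E} : Finset (Hv s (l + 1) p)) = univ := by
    ext v
    simp only [mem_univ, iff_true, mem_union, mem_biUnion, mem_filter, mem_univ, true_and,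
      mem_blk, mem_image, mem_singleton, sg]
    cases v with
    | st i q => exact Or.inl (Or.inl (Or.inl ⟨i, Or.inl (Or.inl ⟨q, rfl⟩)⟩))
    | gd γ t x =>
      by_cases hγ : γ = 1
      · exact Or.inl (Or.inl (Or.inl ⟨t, Or.inl (Or.inr ⟨x, by rw [hγ]⟩)⟩))
      · exact Or.inl (Or.inr ⟨γ, hγ, t, x, rfl⟩)
    | Q t => exact Or.inl (Or.inl (Or.inl ⟨t, Or.inr rfl⟩))
    | Z k => exact Or.inl (Or.inl (Or.inr ⟨k, rfl⟩))
    | E => exact Or.inr rfl
  rw [hall] at h4
  exact contained_of_hp h4 (Or.inr (R.portE _ _ (by simp) rot_zero)) n hn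

end cycle

end Pool.Agent.Q210.HR
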