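import Pool.Agent.Q210.HR.NonHam
import Pool.Agent.Q210.HR.Ham
import Pool.Agent.Q210.HR.Deck

set_option autoImplicit false

/-! # Same decks, different numbers of Hamilton cycles -/

namespace Pool.Agent.Q210.HR

open Finset

/-- The `t`-vertex decks of `G` and `H` are equal: a bijection between the `t`-subsets matches
isomorphic induced subgraphs. -/
def SameDeck {n : ℕ} (G H : SimpleGraph (Fin n)) (t : ℕ) : Prop :=
  ∃ Φ : {S : Finset (Fin n) // S.card = t} ≃ {S : Finset (Fin n) // S.card = t},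
    ∀ S, Nonempty (G.induce (S.1 : Set (Fin n)) ≃g H.induce ((Φ S).1 : Set (Fin n)))

/-- The number of Hamilton cycles: the number of subgraphs isomorphic to the cycle on `n`
vertices. -/
noncomputable def hamCount {n : ℕ} (G : SimpleGraph (Fin n)) : ℕ :=
  G.copyCount (SimpleGraph.cycleGraph n)

/-! ## Decks from counts -/

theorem exists_equiv_of_fibers {A B S : Type} [Finite A] [Finite B] (m : A → S) (m' : B → S)
    (h : ∀ s, Nat.card {a // m a = s} = Nat.card {b // m' b = s}) :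
    ∃ Φ : A ≃ B, ∀ a, m' (Φ a) = m a := by
  classical
  have h1 : ∀ s, Nonempty ({a // m a = s} ≃ {b // m' b = s}) := fun s =>
    Finite.card_eq.1 (h s)
  let e : ∀ s, {a // m a = s} ≃ {b // m' b = s} := fun s => (h1 s).some
  let Φ : A ≃ B := (Equiv.sigmaFiberEquiv m).symm.trans
    ((Equiv.sigmaCongrRight e).trans (Equiv.sigmaFiberEquiv m'))
  exact ⟨Φ, fun a => (e (m a) ⟨a, rfl⟩).2⟩

/-- The graphs isomorphic to the subgraph induced by `S`. -/
def cls {n : ℕ} (G : SimpleGraph (Fin n)) (t : ℕ) (S : {S : Finset (Fin n) // S.card = t}) :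
    Set (SimpleGraph (Fin t)) :=
  {X | Nonempty (G.induce (S.1 : Set (Fin n)) ≃g X)}

theorem cls_nonempty {n : ℕ} (G : SimpleGraph (Fin n)) (t : ℕ)
    (S : {S : Finset (Fin n) // S.card = t}) : (cls G t S).Nonempty := by
  have e : (S.1 : Set (Fin n)) ≃ Fin t := S.1.equivFinOfCardEq S.2
  exact ⟨_, ⟨SimpleGraph.Iso.map e (G.induce (S.1 : Set (Fin n)))⟩⟩

theorem cls_eq_iff {n : ℕ} (G : SimpleGraph (Fin n)) (t : ℕ)
    (S : {S : Finset (Fin n) // S.card = t}) (X : SimpleGraph (Fin t)) :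
    cls G t S = {Y | Nonempty (X ≃g Y)} ↔ Nonempty (G.induce (S.1 : Set (Fin n)) ≃g X) := by
  constructor
  · intro h
    have h1 : X ∈ cls G t S := by
      rw [h]
      exact ⟨SimpleGraph.Iso.refl⟩
    exact h1
  · rintro ⟨e⟩
    ext Y
    exact ⟨fun ⟨f⟩ => ⟨e.symm.trans f⟩, fun ⟨f⟩ => ⟨e.trans f⟩⟩

theorem card_cls {n : ℕ} (G : SimpleGraph (Fin n)) (t : ℕ) (X : SimpleGraph (Fin t)) :
    (Nat.card {S // cls G t S = {Y | Nonempty (X ≃g Y)}} : ℤ) = cnt G t X := by
  classical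
  unfold cnt
  rw [Finset.sum_boole, Nat.card_eq_fintype_card, Fintype.card_subtype]
  congr 1
  refine Finset.card_bij (fun S _ => S.1) ?_ ?_ ?_
  · intro S hS
    rw [mem_filter] at hS
    rw [mem_filter, mem_powersetCard]
    exact ⟨⟨subset_univ _, S.2⟩, (cls_eq_iff G t S X).1 hS.2⟩
  · intro S _ T _ h
    exact Subtype.ext h
  · intro S hS
    rw [mem_filter, mem_powersetCard] at hS
    refine ⟨⟨S, hS.1.2⟩, ?_, rfl⟩
    rw [mem_filter]
    exact ⟨mem_univ _, (cls_eq_iff G t ⟨S, hS.1.2⟩ X).2 hS.2⟩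

theorem sameDeck_of_cnt {n : ℕ} (G H : SimpleGraph (Fin n)) (t : ℕ)
    (h : ∀ X, cnt G t X = cnt H t X) : SameDeck G H t := by
  obtain ⟨Φ, hΦ⟩ := exists_equiv_of_fibers (cls G t) (cls H t) (by
    intro C
    by_cases hC : ∃ X : SimpleGraph (Fin t), C = {Y : SimpleGraph (Fin t) | Nonempty (X ≃g Y)}
    · obtain ⟨X, rfl⟩ := hC
      have h1 := card_cls G t X
      have h2 := card_cls H t X
      rw [h X, ← h2] at h1
      exact_mod_cast h1
    · have key : ∀ (K : SimpleGraph (Fin n)), IsEmpty {S // cls K t S = C} := by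
        intro K
        constructor
        rintro ⟨S, hS⟩
        obtain ⟨X, hX⟩ := cls_nonempty K t S
        exact hC ⟨X, by rw [← hS]; exact (cls_eq_iff K t S X).2 hX⟩
      have h1 := key G
      have h2 := key H
      rw [Nat.card_of_isEmpty, Nat.card_of_isEmpty])
  refine ⟨Φ, fun S => ?_⟩
  obtain ⟨X, hX⟩ := cls_nonempty G t S
  have hX' : X ∈ cls H t (Φ S) := by
    rw [hΦ]
    exact hX
  obtain ⟨e⟩ := hX
  obtain ⟨f⟩ := hX'
  exact ⟨e.trans f.symm⟩

/-! ## Hamilton cycles as subgraphs -/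

theorem exists_HC {s L p : ℕ} {σ : Equiv.Perm (Fin (s + 1))} (m : ℕ)
    (hm : Fintype.card (Hv s L p) = m + 3)
    (h : (SimpleGraph.cycleGraph (m + 3)).IsContained (Gr σ : SimpleGraph (Hv s L p))) :
    ∃ F : SimpleGraph (Hv s L p), HC σ F := by
  obtain ⟨f⟩ := h
  have hf : Function.Injective f := f.injective
  have hbij : Function.Bijective f := by
    rw [Fintype.bijective_iff_injective_and_card]
    exact ⟨hf, by rw [Fintype.card_fin, hm]⟩
  let e : Fin (m + 3) ≃ Hv s L p := Equiv.ofBijective f hbij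
  refine ⟨(SimpleGraph.cycleGraph (m + 3)).comap e.symm, ?_, ?_, ?_⟩
  · intro u v huv
    have h1 : (SimpleGraph.cycleGraph (m + 3)).Adj (e.symm u) (e.symm v) := huv
    have h2 : (Gr σ : SimpleGraph (Hv s L p)).Adj (e (e.symm u)) (e (e.symm v)) :=
      f.toHom.map_adj h1
    rwa [Equiv.apply_symm_apply, Equiv.apply_symm_apply] at h2
  · intro v
    have hnb : ∀ i : Fin (m + 3), (SimpleGraph.cycleGraph (m + 3)).Adj (e.symm v) i ↔
        i = e.symm v - 1 ∨ i = e.symm v + 1 := by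
      intro i
      have := SimpleGraph.cycleGraph_neighborSet (n := m + 1) (v := e.symm v)
      have h1 : i ∈ (SimpleGraph.cycleGraph (m + 3)).neighborSet (e.symm v) ↔
          i ∈ ({e.symm v - 1, e.symm v + 1} : Set (Fin (m + 3))) := by
        rw [← this]
      simpa using h1
    refine ⟨e (e.symm v - 1), e (e.symm v + 1), ?_, ?_⟩
    · intro h1
      have h2 := e.injective h1
      simp only [sub_eq_iff_eq_add, add_assoc, left_eq_add] at h2
      exact absurd h2 (ne_of_beq_false rfl)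
    · intro w
      show (SimpleGraph.cycleGraph (m + 3)).Adj (e.symm v) (e.symm w) ↔ _
      rw [hnb, Equiv.symm_apply_eq, Equiv.symm_apply_eq]
  · intro C hC hcl v
    obtain ⟨u, hu⟩ := hC
    have hr : (SimpleGraph.cycleGraph (m + 3)).Reachable (e.symm u) (e.symm v) :=
      SimpleGraph.cycleGraph_preconnected _ _
    rw [SimpleGraph.reachable_iff_reflTransGen] at hr
    have key : ∀ i, Relation.ReflTransGen (SimpleGraph.cycleGraph (m + 3)).Adj (e.symm u) i →
        e i ∈ C := by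
      intro i hi
      induction hi with
      | refl => rwa [Equiv.apply_symm_apply]
      | tail _ hbc ih =>
        refine hcl _ _ ih ?_
        show (SimpleGraph.cycleGraph (m + 3)).Adj (e.symm (e _)) (e.symm (e _))
        rwa [Equiv.symm_apply_apply, Equiv.symm_apply_apply]
    have := key _ hr
    rwa [Equiv.apply_symm_apply] at this

theorem isContained_iso {n : ℕ} {V W : Type} {G : SimpleGraph V} {H : SimpleGraph W}
    (φ : G ≃g H) (h : (SimpleGraph.cycleGraph n).IsContained G) :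
    (SimpleGraph.cycleGraph n).IsContained H :=
  h.trans ⟨φ.toCopy⟩

/-- The pair of graphs. -/
theorem pair (s l p n t : ℕ) (hs : 2 ≤ s) (hl : 1 ≤ l) (hn : Fintype.card (Hv s (l + 1) p) = n)
    (ht : t < s * (l + 1)) :
    ∃ G H : SimpleGraph (Fin n), SameDeck G H t ∧ 0 < hamCount G ∧ hamCount H = 0 := by
  classical
  let e : Hv s (l + 1) p ≃ Fin n := Fintype.equivFinOfCardEq hn
  have h01 : (0 : Fin (s + 1)) ≠ Fin.last s := by
    intro h1
    have := congrArg Fin.val h1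
    simp only [Fin.val_zero, Fin.val_last] at this
    omega
  let σ : Equiv.Perm (Fin (s + 1)) := rot s
  let τ : Equiv.Perm (Fin (s + 1)) := rot s * Equiv.swap 0 (Fin.last s)
  have hn3 : ∃ m, n = m + 3 := by
    refine ⟨n - 3, ?_⟩
    have := card_hv s (l + 1) p
    omega
  obtain ⟨m, rfl⟩ := hn3
  have hσ := ham (s := s) (l := l) (p := p) hs _ hn
  obtain ⟨F, hF⟩ := exists_HC m hn hσ
  have hsσ : Equiv.Perm.sign σ = -(-1) ^ (s + 1) := hF.sign (by omega) (by omega)
  refine ⟨(Gr σ : SimpleGraph (Hv s (l + 1) p)).map e,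
    (Gr τ : SimpleGraph (Hv s (l + 1) p)).map e, ?_, ?_, ?_⟩
  · apply sameDeck_of_cnt
    intro X
    rw [← cnt_iso (SimpleGraph.Iso.map e (Gr σ)) t X, ← cnt_iso (SimpleGraph.Iso.map e (Gr τ)) t X]
    exact cnt_eq (by omega) t ht X σ τ
  · unfold hamCount
    rw [SimpleGraph.copyCount_pos]
    exact isContained_iso (SimpleGraph.Iso.map e (Gr σ)) hσ
  · unfold hamCount
    rw [SimpleGraph.copyCount_eq_zero]
    intro hcon
    have h1 := isContained_iso (SimpleGraph.Iso.map e (Gr τ)).symm hcon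
    obtain ⟨F', hF'⟩ := exists_HC m hn h1
    have hsτ : Equiv.Perm.sign τ = -(-1) ^ (s + 1) := hF'.sign (by omega) (by omega)
    have h2 : Equiv.Perm.sign τ = - Equiv.Perm.sign σ := by
      show Equiv.Perm.sign (rot s * Equiv.swap 0 (Fin.last s)) = - Equiv.Perm.sign (rot s)
      rw [Equiv.Perm.sign_mul, Equiv.Perm.sign_swap h01]
      simp
    rw [hsτ, hsσ] at h2
    have h3 := congrArg (fun z : ℤˣ => (z : ℤ)) h2
    rcases Int.units_eq_one_or (-(-1) ^ (s + 1)) with h4 | h4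
    · rw [h4] at h3
      simp at h3
    · rw [h4] at h3
      simp at h3

theorem main (c : ℝ) (hc1 : c < 1) :
    ∃ n₁ : ℕ, ∀ n : ℕ, n₁ ≤ n → ∃ G H : SimpleGraph (Fin n),
      SameDeck G H ⌊c * n⌋₊ ∧ 0 < hamCount G ∧ hamCount H = 0 := by
  obtain ⟨k, hk⟩ := exists_nat_one_div_lt (sub_pos.2 hc1)
  obtain ⟨s, hs2, hsk⟩ : ∃ s : ℕ, 2 ≤ s ∧ k ≤ s := ⟨max 2 k, le_max_left _ _, le_max_right _ _⟩
  have hs1 : (0 : ℝ) < (s : ℝ) + 1 := by positivity
  have hδ : 0 < (s : ℝ) / (s + 1) - c := by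
    have h1 : (1 : ℝ) / (s + 1) ≤ 1 / (k + 1) := by
      apply one_div_le_one_div_of_le (by positivity)
      have : (k : ℝ) ≤ s := by exact_mod_cast hsk
      linarith
    have h2 : (s : ℝ) / (s + 1) = 1 - 1 / (s + 1) := by
      field_simp
      ring
    rw [h2]
    linarith
  set K : ℕ := Fintype.card (Ev s) * ((s + 1) * 9) + ((s + 1) + 3) with hK
  obtain ⟨n₂, hn₂⟩ := exists_nat_gt (((K : ℝ) + s) / ((s : ℝ) / (s + 1) - c))
  refine ⟨max n₂ (K + 2 * (s + 1)), fun n hn => ?_⟩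
  have hn1 : n₂ ≤ n := le_trans (le_max_left _ _) hn
  have hn2 : K + 2 * (s + 1) ≤ n := le_trans (le_max_right _ _) hn
  obtain ⟨m, rfl⟩ : ∃ m, n = K + m := ⟨n - K, by omega⟩
  have hdm := Nat.div_add_mod m (s + 1)
  have hmod : m % (s + 1) < s + 1 := Nat.mod_lt _ (by omega)
  have hL : 2 ≤ m / (s + 1) := by
    rw [Nat.le_div_iff_mul_le (by omega)]
    omega
  obtain ⟨l, hl⟩ : ∃ l, m / (s + 1) = l + 1 := ⟨m / (s + 1) - 1, by omega⟩
  rw [hl] at hdm hL
  refine pair s l (m % (s + 1)) (K + m) _ hs2 (by omega) ?_ ?_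
  · rw [card_hv, hK]
    omega
  · rw [Nat.floor_lt' (by positivity)]
    have h3 : (((s + 1) * (l + 1) + m % (s + 1) : ℕ) : ℝ) = m := by rw [hdm]
    have h4 : ((m % (s + 1) : ℕ) : ℝ) ≤ s := by exact_mod_cast Nat.lt_succ_iff.1 hmod
    have h5 : (K : ℝ) + s < ((s : ℝ) / (s + 1) - c) * ((K + m : ℕ) : ℝ) := by
      have h6 : (((K : ℝ) + s) / ((s : ℝ) / (s + 1) - c)) < ((K + m : ℕ) : ℝ) := by
        refine lt_of_lt_of_le hn₂ ?_
        exact_mod_cast hn1
      rw [div_lt_iff₀ hδ] at h6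
      linarith
    push_cast at h3 h4 h5 ⊢
    have h7 : ((s : ℝ) + 1) * (l + 1) ≥ m - s := by linarith
    have h8 : (s : ℝ) * (l + 1) = (s / (s + 1)) * ((s + 1) * (l + 1)) := by
      field_simp
    have h9 : (s : ℝ) / (s + 1) ≤ 1 := by
      rw [div_le_one hs1]
      linarith
    have h10 : 0 ≤ (s : ℝ) / (s + 1) := by positivity
    rw [h8]
    have h11 : (s : ℝ) / (s + 1) * (m - s) ≤ (s / (s + 1)) * ((s + 1) * (l + 1)) :=
      mul_le_mul_of_nonneg_left h7 h10
    have hK0 : (0 : ℝ) ≤ K := by positivity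
    have hs0 : (0 : ℝ) ≤ s := by positivity
    nlinarith [mul_le_mul_of_nonneg_right h9 hK0, mul_le_mul_of_nonneg_right h9 hs0]

/-- `h` is determined by the deck of size `⌊cn⌋` for graphs with `n` vertices. -/
def Determined (c : ℝ) (n : ℕ) : Prop :=
  ∀ G H : SimpleGraph (Fin n), SameDeck G H ⌊c * n⌋₊ → hamCount G = hamCount H

end Pool.Agent.Q210.HR
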