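import Pool.Agent.Q210.HR.Graph

set_option autoImplicit false

/-! # A Hamilton cycle sees the sign -/

namespace Pool.Agent.Q210.HR

open Finset

variable {s L p : ℕ} {σ : Equiv.Perm (Fin (s + 1))} {F : SimpleGraph (Hv s L p)}

/-- `F` is a Hamilton cycle of `Gr σ`. -/
structure HC (σ : Equiv.Perm (Fin (s + 1))) (F : SimpleGraph (Hv s L p)) : Prop where
  le : ∀ {u v}, F.Adj u v → (Gr σ).Adj u v
  two : ∀ v, ∃ a b, a ≠ b ∧ ∀ w, F.Adj v w ↔ (w = a ∨ w = b)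
  conn : ∀ C : Set (Hv s L p), C.Nonempty → (∀ u v, u ∈ C → F.Adj u v → v ∈ C) → ∀ v, v ∈ C

theorem HC.forced (h : HC σ F) {v a b : Hv s L p}
    (hv : ∀ w, F.Adj v w → w = a ∨ w = b) : F.Adj v a ∧ F.Adj v b := by
  obtain ⟨x, y, hxy, h2⟩ := h.two v
  have hx := hv x ((h2 x).2 (Or.inl rfl))
  have hy := hv y ((h2 y).2 (Or.inr rfl))
  rcases hx with hx | hx <;> rcases hy with hy | hy
  · exact absurd (hx.trans hy.symm) hxy
  · exact ⟨(h2 a).2 (Or.inl hx.symm), (h2 b).2 (Or.inr hy.symm)⟩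
  · exact ⟨(h2 a).2 (Or.inr hy.symm), (h2 b).2 (Or.inl hx.symm)⟩
  · exact absurd (hx.trans hy.symm) hxy

theorem HC.third (h : HC σ F) {v a b w : Hv s L p} (ha : F.Adj v a) (hb : F.Adj v b)
    (hab : a ≠ b) (hw : F.Adj v w) : w = a ∨ w = b := by
  obtain ⟨x, y, hxy, h2⟩ := h.two v
  rcases (h2 a).1 ha with ha | ha <;> rcases (h2 b).1 hb with hb | hb <;>
    rcases (h2 w).1 hw with hw | hw
  · exact absurd (ha.trans hb.symm) hab
  · exact absurd (ha.trans hb.symm) hab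
  · exact Or.inl (hw.trans ha.symm)
  · exact Or.inr (hw.trans hb.symm)
  · exact Or.inr (hw.trans hb.symm)
  · exact Or.inl (hw.trans ha.symm)
  · exact absurd (ha.trans hb.symm) hab
  · exact absurd (ha.trans hb.symm) hab

theorem HC.other (h : HC σ F) {v a : Hv s L p} (_ : F.Adj v a) : ∃ b, b ≠ a ∧ F.Adj v b := by
  obtain ⟨x, y, hxy, h2⟩ := h.two v
  by_cases hx : x = a
  · exact ⟨y, fun hy => hxy (hx.trans hy.symm), (h2 y).2 (Or.inr rfl)⟩
  · exact ⟨x, hx, (h2 x).2 (Or.inl rfl)⟩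

theorem HC.no_small (h : HC σ F) (C : Set (Hv s L p)) (hC : C.Nonempty) (hE : Hv.E ∉ C)
    (h2 : ∀ v ∈ C, ∃ a b, a ≠ b ∧ a ∈ C ∧ b ∈ C ∧ F.Adj v a ∧ F.Adj v b) : False := by
  refine hE (h.conn C hC ?_ Hv.E)
  intro u v hu huv
  obtain ⟨a, b, hab, ha, hb, hua, hub⟩ := h2 u hu
  rcases h.third hua hub hab huv with h3 | h3
  · exact h3 ▸ ha
  · exact h3 ▸ hb

/-! ## Neighbours -/

section nb

variable (σ) (α : Ev s) (t : Fin (s + 1)) (w : Hv s L p)

open Gv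

theorem nb_m1 (h : (Gr σ).Adj (Hv.gd α t m1) w) : w = Hv.gd α t t1 ∨ w = Hv.gd α t b1 := by
  rcases h with h | h <;> cases h with
  | inner _ _ _ _ h => cases h <;> simp

theorem nb_m2 (h : (Gr σ).Adj (Hv.gd α t m2) w) : w = Hv.gd α t t2 ∨ w = Hv.gd α t b2 := by
  rcases h with h | h <;> cases h with
  | inner _ _ _ _ h => cases h <;> simp

theorem nb_m3 (h : (Gr σ).Adj (Hv.gd α t m3) w) : w = Hv.gd α t t3 ∨ w = Hv.gd α t b3 := by
  rcases h with h | h <;> cases h with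
  | inner _ _ _ _ h => cases h <;> simp

theorem nb_t2 (h : (Gr σ).Adj (Hv.gd α t t2) w) :
    w = Hv.gd α t t1 ∨ w = Hv.gd α t t3 ∨ w = Hv.gd α t m2 := by
  rcases h with h | h <;> cases h with
  | inner _ _ _ _ h => cases h <;> simp

theorem nb_b2 (h : (Gr σ).Adj (Hv.gd α t b2) w) :
    w = Hv.gd α t b1 ∨ w = Hv.gd α t b3 ∨ w = Hv.gd α t m2 := by
  rcases h with h | h <;> cases h with
  | inner _ _ _ _ h => cases h <;> simp

theorem nb_t3 (h : (Gr σ).Adj (Hv.gd α t t3) w) :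
    w = Hv.gd α t t2 ∨ w = Hv.gd α t m3 ∨ ∃ q : Fin L, q.val = 0 ∧ w = Hv.st (α.1 t) q := by
  rcases h with h | h
  · cases h with
    | inner _ _ _ _ h => cases h <;> simp
  · cases h with
    | inner _ _ _ _ h => cases h <;> simp
    | start i q hq _ _ h => exact Or.inr (Or.inr ⟨q, hq, by rw [h]⟩)

theorem nb_b1 (h : (Gr σ).Adj (Hv.gd α t b1) w) :
    w = Hv.gd α t b2 ∨ w = Hv.gd α t m1 ∨ w = Hv.Q t := by
  rcases h with h | h
  · cases h with
    | inner _ _ _ _ h => cases h <;> simp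
    | rail => simp
  · cases h with
    | inner _ _ _ _ h => cases h <;> simp

theorem nb_t1 (h : (Gr σ).Adj (Hv.gd α t t1) w) :
    w = Hv.gd α t t2 ∨ w = Hv.gd α t m1 ∨ (∃ t' : Fin (s + 1), t'.val + 1 = t.val ∧
      w = Hv.gd α t' b3) ∨ t = 0 := by
  rcases h with h | h
  · cases h with
    | inner _ _ _ _ h => cases h <;> simp
  · cases h with
    | inner _ _ _ _ h => cases h
    | thr _ t' _ h => exact Or.inr (Or.inr (Or.inl ⟨t', h, rfl⟩))
    | jump _ _ _ _ _ _ ht => exact Or.inr (Or.inr (Or.inr ht))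
    | zt _ _ _ _ ht => exact Or.inr (Or.inr (Or.inr ht))

theorem nb_b3 (h : (Gr σ).Adj (Hv.gd α t b3) w) :
    w = Hv.gd α t b2 ∨ w = Hv.gd α t m3 ∨ (∃ t' : Fin (s + 1), t.val + 1 = t'.val ∧
      w = Hv.gd α t' t1) ∨ t = Fin.last s := by
  rcases h with h | h
  · cases h with
    | inner _ _ _ _ h => cases h
    | thr _ _ t' h => exact Or.inr (Or.inr (Or.inl ⟨t', h, rfl⟩))
    | jump _ _ _ _ _ ht => exact Or.inr (Or.inr (Or.inr ht))
    | exit _ _ ht => exact Or.inr (Or.inr (Or.inr ht))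
  · cases h with
    | inner _ _ _ _ h => cases h <;> simp

theorem nb_Q (t : Fin (s + 1)) (ht : t ≠ Fin.last s) (h : (Gr σ).Adj (Hv.Q t) w) :
    (∃ α : Ev s, w = Hv.gd α t b1) ∨ (∃ q : Fin L, q.val + 1 = L ∧ w = Hv.st (σ⁻¹ t) q) := by
  rcases h with h | h
  · cases h with
    | qz _ h1 => exact absurd h1 ht
  · cases h with
    | rail α => exact Or.inl ⟨α, rfl⟩
    | port i q hq _ h _ =>
      refine Or.inr ⟨q, hq, ?_⟩
      rw [← h]
      congr 1
      exact (σ.symm_apply_apply i).symm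

end nb

open Gv

/-- The gadget is in its rail state. -/
def Bs (F : SimpleGraph (Hv s L p)) (α : Ev s) (t : Fin (s + 1)) : Prop :=
  F.Adj (Hv.gd α t t2) (Hv.gd α t t1)

theorem HC.m1 (h : HC σ F) (α : Ev s) (t : Fin (s + 1)) :
    F.Adj (Hv.gd α t m1) (Hv.gd α t t1) ∧ F.Adj (Hv.gd α t m1) (Hv.gd α t b1) :=
  h.forced fun w hw => nb_m1 σ α t w (h.le hw)

theorem HC.m2 (h : HC σ F) (α : Ev s) (t : Fin (s + 1)) :
    F.Adj (Hv.gd α t m2) (Hv.gd α t t2) ∧ F.Adj (Hv.gd α t m2) (Hv.gd α t b2) :=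
  h.forced fun w hw => nb_m2 σ α t w (h.le hw)

theorem HC.m3 (h : HC σ F) (α : Ev s) (t : Fin (s + 1)) :
    F.Adj (Hv.gd α t m3) (Hv.gd α t t3) ∧ F.Adj (Hv.gd α t m3) (Hv.gd α t b3) :=
  h.forced fun w hw => nb_m3 σ α t w (h.le hw)

theorem HC.top (h : HC σ F) (α : Ev s) (t : Fin (s + 1)) :
    (F.Adj (Hv.gd α t t2) (Hv.gd α t t1) ∧ ¬ F.Adj (Hv.gd α t t2) (Hv.gd α t t3)) ∨
    (F.Adj (Hv.gd α t t2) (Hv.gd α t t3) ∧ ¬ F.Adj (Hv.gd α t t2) (Hv.gd α t t1)) := by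
  have h1 : F.Adj (Hv.gd α t t2) (Hv.gd α t Gv.m2) := (h.m2 α t).1.symm
  obtain ⟨b, hb, h2⟩ := h.other h1
  rcases nb_t2 σ α t b (h.le h2) with h3 | h3 | h3
  · subst h3
    refine Or.inl ⟨h2, fun h4 => ?_⟩
    rcases h.third h1 h2 hb.symm h4 with h5 | h5 <;> simp at h5
  · subst h3
    refine Or.inr ⟨h2, fun h4 => ?_⟩
    rcases h.third h1 h2 hb.symm h4 with h5 | h5 <;> simp at h5
  · exact absurd h3 hb

theorem HC.bot (h : HC σ F) (α : Ev s) (t : Fin (s + 1)) :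
    (F.Adj (Hv.gd α t b2) (Hv.gd α t b1) ∧ ¬ F.Adj (Hv.gd α t b2) (Hv.gd α t b3)) ∨
    (F.Adj (Hv.gd α t b2) (Hv.gd α t b3) ∧ ¬ F.Adj (Hv.gd α t b2) (Hv.gd α t b1)) := by
  have h1 : F.Adj (Hv.gd α t b2) (Hv.gd α t Gv.m2) := (h.m2 α t).2.symm
  obtain ⟨b, hb, h2⟩ := h.other h1
  rcases nb_b2 σ α t b (h.le h2) with h3 | h3 | h3
  · subst h3
    refine Or.inl ⟨h2, fun h4 => ?_⟩
    rcases h.third h1 h2 hb.symm h4 with h5 | h5 <;> simp at h5
  · subst h3
    refine Or.inr ⟨h2, fun h4 => ?_⟩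
    rcases h.third h1 h2 hb.symm h4 with h5 | h5 <;> simp at h5
  · exact absurd h3 hb

theorem HC.rail (h : HC σ F) {α : Ev s} {t : Fin (s + 1)} (hB : Bs F α t) :
    F.Adj (Hv.gd α t b2) (Hv.gd α t b3) ∧ ¬ F.Adj (Hv.gd α t b2) (Hv.gd α t b1) ∧
      ¬ F.Adj (Hv.gd α t t2) (Hv.gd α t t3) := by
  have ht : ¬ F.Adj (Hv.gd α t t2) (Hv.gd α t t3) := by
    rcases h.top α t with h1 | h1
    · exact h1.2
    · exact absurd hB h1.2
  rcases h.bot α t with h1 | h1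
  · exfalso
    refine h.no_small {Hv.gd α t t1, Hv.gd α t t2, Hv.gd α t Gv.m2, Hv.gd α t b2, Hv.gd α t b1,
      Hv.gd α t Gv.m1} ⟨_, Or.inl rfl⟩ (by simp) ?_
    intro v hv
    simp only [Set.mem_insert_iff, Set.mem_singleton_iff] at hv
    have hB' : F.Adj (Hv.gd α t t2) (Hv.gd α t t1) := hB
    rcases hv with rfl | rfl | rfl | rfl | rfl | rfl
    · exact ⟨Hv.gd α t t2, Hv.gd α t Gv.m1, by simp, by simp, by simp, hB'.symm,
        (h.m1 α t).1.symm⟩
    · exact ⟨Hv.gd α t t1, Hv.gd α t Gv.m2, by simp, by simp, by simp, hB', (h.m2 α t).1.symm⟩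
    · exact ⟨Hv.gd α t t2, Hv.gd α t b2, by simp, by simp, by simp, (h.m2 α t).1, (h.m2 α t).2⟩
    · exact ⟨Hv.gd α t b1, Hv.gd α t Gv.m2, by simp, by simp, by simp, h1.1, (h.m2 α t).2.symm⟩
    · exact ⟨Hv.gd α t b2, Hv.gd α t Gv.m1, by simp, by simp, by simp, h1.1.symm,
        (h.m1 α t).2.symm⟩
    · exact ⟨Hv.gd α t t1, Hv.gd α t b1, by simp, by simp, by simp, (h.m1 α t).1, (h.m1 α t).2⟩
  · exact ⟨h1.1, h1.2, ht⟩

theorem HC.thread (h : HC σ F) {α : Ev s} {t : Fin (s + 1)} (hB : ¬ Bs F α t) :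
    F.Adj (Hv.gd α t t2) (Hv.gd α t t3) ∧ F.Adj (Hv.gd α t b2) (Hv.gd α t b1) ∧
      ¬ F.Adj (Hv.gd α t b2) (Hv.gd α t b3) := by
  have ht : F.Adj (Hv.gd α t t2) (Hv.gd α t t3) := by
    rcases h.top α t with h1 | h1
    · exact absurd h1.1 hB
    · exact h1.1
  rcases h.bot α t with h1 | h1
  · exact ⟨ht, h1.1, h1.2⟩
  · exfalso
    refine h.no_small {Hv.gd α t t3, Hv.gd α t t2, Hv.gd α t Gv.m2, Hv.gd α t b2, Hv.gd α t b3,
      Hv.gd α t Gv.m3} ⟨_, Or.inl rfl⟩ (by simp) ?_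
    intro v hv
    simp only [Set.mem_insert_iff, Set.mem_singleton_iff] at hv
    rcases hv with rfl | rfl | rfl | rfl | rfl | rfl
    · exact ⟨Hv.gd α t t2, Hv.gd α t Gv.m3, by simp, by simp, by simp, ht.symm,
        (h.m3 α t).1.symm⟩
    · exact ⟨Hv.gd α t t3, Hv.gd α t Gv.m2, by simp, by simp, by simp, ht, (h.m2 α t).1.symm⟩
    · exact ⟨Hv.gd α t t2, Hv.gd α t b2, by simp, by simp, by simp, (h.m2 α t).1, (h.m2 α t).2⟩
    · exact ⟨Hv.gd α t b3, Hv.gd α t Gv.m2, by simp, by simp, by simp, h1.1, (h.m2 α t).2.symm⟩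
    · exact ⟨Hv.gd α t b2, Hv.gd α t Gv.m3, by simp, by simp, by simp, h1.1.symm,
        (h.m3 α t).2.symm⟩
    · exact ⟨Hv.gd α t t3, Hv.gd α t b3, by simp, by simp, by simp, (h.m3 α t).1, (h.m3 α t).2⟩

/-- In the rail state the thread is not used. -/
theorem HC.rail_t1 (h : HC σ F) {α : Ev s} {t : Fin (s + 1)} (hB : Bs F α t) {w : Hv s L p}
    (hw : F.Adj (Hv.gd α t t1) w) : w = Hv.gd α t t2 ∨ w = Hv.gd α t Gv.m1 :=
  h.third (SimpleGraph.Adj.symm hB) (h.m1 α t).1.symm (by simp) hw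

theorem HC.rail_b3 (h : HC σ F) {α : Ev s} {t : Fin (s + 1)} (hB : Bs F α t) {w : Hv s L p}
    (hw : F.Adj (Hv.gd α t b3) w) : w = Hv.gd α t b2 ∨ w = Hv.gd α t Gv.m3 :=
  h.third (h.rail hB).1.symm (h.m3 α t).2.symm (by simp) hw

theorem HC.rail_b1 (h : HC σ F) {α : Ev s} {t : Fin (s + 1)} (hB : Bs F α t) :
    F.Adj (Hv.gd α t b1) (Hv.Q t) := by
  have h1 : F.Adj (Hv.gd α t b1) (Hv.gd α t Gv.m1) := (h.m1 α t).2.symm
  obtain ⟨w, hw, h2⟩ := h.other h1
  rcases nb_b1 σ α t w (h.le h2) with h3 | h3 | h3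
  · subst h3
    exact absurd h2.symm (h.rail hB).2.1
  · exact absurd h3 hw
  · exact h3 ▸ h2

/-- In the thread state the rail is not used. -/
theorem HC.thread_t3 (h : HC σ F) {α : Ev s} {t : Fin (s + 1)} (hB : ¬ Bs F α t) {w : Hv s L p}
    (hw : F.Adj (Hv.gd α t t3) w) : w = Hv.gd α t t2 ∨ w = Hv.gd α t Gv.m3 :=
  h.third (h.thread hB).1.symm (h.m3 α t).1.symm (by simp) hw

theorem HC.thread_b1 (h : HC σ F) {α : Ev s} {t : Fin (s + 1)} (hB : ¬ Bs F α t) {w : Hv s L p}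
    (hw : F.Adj (Hv.gd α t b1) w) : w = Hv.gd α t b2 ∨ w = Hv.gd α t Gv.m1 :=
  h.third (h.thread hB).2.1.symm (h.m1 α t).2.symm (by simp) hw

theorem HC.thread_b3 (h : HC σ F) {α : Ev s} {t : Fin (s + 1)} (hB : ¬ Bs F α t) :
    ∃ w, F.Adj (Hv.gd α t b3) w ∧ w ≠ Hv.gd α t b2 ∧ w ≠ Hv.gd α t Gv.m3 := by
  have h1 : F.Adj (Hv.gd α t b3) (Hv.gd α t Gv.m3) := (h.m3 α t).2.symm
  obtain ⟨w, hw, h2⟩ := h.other h1
  refine ⟨w, h2, ?_, hw⟩
  rintro rfl
  exact (h.thread hB).2.2 h2.symm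

theorem HC.thread_t1 (h : HC σ F) {α : Ev s} {t : Fin (s + 1)} (hB : ¬ Bs F α t) :
    ∃ w, F.Adj (Hv.gd α t t1) w ∧ w ≠ Hv.gd α t t2 ∧ w ≠ Hv.gd α t Gv.m1 := by
  have h1 : F.Adj (Hv.gd α t t1) (Hv.gd α t Gv.m1) := (h.m1 α t).1.symm
  obtain ⟨w, hw, h2⟩ := h.other h1
  refine ⟨w, h2, ?_, hw⟩
  rintro rfl
  exact hB h2.symm

theorem HC.step (h : HC σ F) (α : Ev s) (t t' : Fin (s + 1)) (ht : t.val + 1 = t'.val) :
    Bs F α t ↔ Bs F α t' := by
  constructor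
  · intro hB
    by_contra hB'
    obtain ⟨w, hw, h1, h2⟩ := h.thread_t1 hB'
    rcases nb_t1 σ α t' w (h.le hw) with h3 | h3 | ⟨t'', h3, h4⟩ | h3
    · exact h1 h3
    · exact h2 h3
    · have h5 : t'' = t := Fin.ext (by omega)
      subst h5
      subst h4
      rcases h.rail_b3 hB hw.symm with h6 | h6 <;> simp at h6
    · rw [h3] at ht
      simp at ht
  · intro hB'
    by_contra hB
    obtain ⟨w, hw, h1, h2⟩ := h.thread_b3 hB
    rcases nb_b3 σ α t w (h.le hw) with h3 | h3 | ⟨t'', h3, h4⟩ | h3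
    · exact h1 h3
    · exact h2 h3
    · have h5 : t'' = t' := Fin.ext (by omega)
      subst h5
      subst h4
      rcases h.rail_t1 hB' hw.symm with h6 | h6 <;> simp at h6
    · rw [h3] at ht
      have := t'.isLt
      simp only [Fin.val_last] at ht
      omega

theorem HC.const (h : HC σ F) (α : Ev s) (t : Fin (s + 1)) : Bs F α t ↔ Bs F α 0 := by
  obtain ⟨t, ht⟩ := t
  induction t with
  | zero => rfl
  | succ t ih =>
    rw [← ih (by omega)]
    exact (h.step α ⟨t, by omega⟩ ⟨t + 1, ht⟩ rfl).symm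

theorem nb_end (hL : 2 ≤ L) (i : Fin (s + 1)) (q : Fin L) (hq : q.val + 1 = L) (w : Hv s L p)
    (h : (Gr σ).Adj (Hv.st i q) w) :
    w = Hv.st i ⟨L - 2, by omega⟩ ∨ w = (if σ i = Fin.last s then Hv.E else Hv.Q (σ i)) := by
  rcases h with h | h
  · cases h with
    | strand _ _ q' h =>
      have := q'.isLt
      omega
    | start _ _ h => omega
    | port _ _ _ t h ht =>
      subst h
      simp [ht]
    | portE _ _ _ h => simp [h]
  · cases h with
    | strand _ q' _ h =>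
      left
      congr 1
      apply Fin.ext
      show q'.val = L - 2
      omega

theorem HC.end_adj (hL : 2 ≤ L) (h : HC σ F) (i : Fin (s + 1)) (q : Fin L)
    (hq : q.val + 1 = L) :
    F.Adj (Hv.st i q) (if σ i = Fin.last s then Hv.E else Hv.Q (σ i)) :=
  (h.forced fun w hw => nb_end hL i q hq w (h.le hw)).2

theorem HC.unique (hs : 1 ≤ s) (hL : 2 ≤ L) (h : HC σ F) : ∃ α : Ev s, ∀ β t, Bs F β t ↔ β = α := by
  have h0 : (0 : Fin (s + 1)) ≠ Fin.last s := by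
    intro h1
    have := congrArg Fin.val h1
    simp only [Fin.val_zero, Fin.val_last] at this
    omega
  obtain ⟨a, b, hab, h2⟩ := h.two (Hv.Q 0)
  have ha := nb_Q σ a 0 h0 (h.le ((h2 a).2 (Or.inl rfl)))
  have hb := nb_Q σ b 0 h0 (h.le ((h2 b).2 (Or.inr rfl)))
  have hfa := (h2 a).2 (Or.inl rfl)
  have hfb := (h2 b).2 (Or.inr rfl)
  have key : ∀ β : Ev s, F.Adj (Hv.Q 0) (Hv.gd β 0 b1) ↔ Bs F β 0 := by
    intro β
    constructor
    · intro h3
      by_contra h4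
      rcases h.thread_b1 h4 h3.symm with h5 | h5 <;> simp at h5
    · intro h3
      exact (h.rail_b1 h3).symm
  have fin : ∀ α : Ev s, (∀ β, F.Adj (Hv.Q 0) (Hv.gd β 0 b1) ↔ β = α) →
      ∃ α : Ev s, ∀ β t, Bs F β t ↔ β = α := by
    intro α hα
    refine ⟨α, fun β t => ?_⟩
    rw [h.const, ← key, hα]
  -- at most one strand end among `a`, `b`
  rcases ha with ⟨α, ha⟩ | ⟨q, hq, ha⟩ <;> rcases hb with ⟨β, hb⟩ | ⟨q', hq', hb⟩
  · -- both are gadgets: the end of the strand is not covered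
    exfalso
    have h3 := h.end_adj hL (σ⁻¹ 0) ⟨L - 1, by omega⟩ (by simp; omega)
    have h4 : σ (σ⁻¹ 0) = 0 := σ.apply_symm_apply 0
    rw [h4, if_neg h0] at h3
    rcases (h2 _).1 h3.symm with h5 | h5
    · rw [ha] at h5
      simp at h5
    · rw [hb] at h5
      simp at h5
  · apply fin α
    intro β
    rw [h2, ha, hb]
    simp
  · apply fin β
    intro β'
    rw [h2, ha, hb]
    simp
  · exfalso
    apply hab
    rw [ha, hb]
    congr 1
    apply Fin.ext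
    omega

/-- Labels. -/
def lab (α₀ : Ev s) : Hv s L p → Fin (s + 1)
  | Hv.st i _ => i
  | Hv.gd α t _ => if α = α₀ then α₀.1 t else α₀.1 (Fin.last s)
  | Hv.Q t => α₀.1 t
  | Hv.Z _ => α₀.1 (Fin.last s)
  | Hv.E => α₀.1 (Fin.last s)

theorem HC.lab_R (h : HC σ F) {α₀ : Ev s} (hα : ∀ β t, Bs F β t ↔ β = α₀) {u v : Hv s L p}
    (huv : R σ u v) (hF : F.Adj u v) : (α₀.1 * σ).SameCycle (lab α₀ u) (lab α₀ v) := by
  cases huv with
  | strand i q q' _ => exact Equiv.Perm.SameCycle.refl _ _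
  | start i q hq α t hi =>
    by_cases hc : α = α₀
    · subst hc
      simp only [lab, if_true, hi]
      exact Equiv.Perm.SameCycle.refl _ _
    · exfalso
      have hB : ¬ Bs F α t := fun hB => hc ((hα _ _).1 hB)
      rcases h.thread_t3 hB hF.symm with h6 | h6 <;> simp at h6
  | port i q hq t hi ht =>
    simp only [lab]
    rw [← hi]
    exact ⟨1, by simp⟩
  | portE i q hq hi =>
    simp only [lab]
    rw [← hi]
    exact ⟨1, by simp⟩
  | inner α t x y _ => exact Equiv.Perm.SameCycle.refl _ _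
  | thr α t t' ht =>
    by_cases hc : α = α₀
    · exfalso
      have hB : Bs F α t := (hα _ _).2 hc
      rcases h.rail_b3 hB hF with h6 | h6 <;> simp at h6
    · simp only [lab, if_neg hc]
      exact Equiv.Perm.SameCycle.refl _ _
  | jump α α' hne t t' ht ht' =>
    by_cases hc : α = α₀
    · exfalso
      have hB : Bs F α t := (hα _ _).2 hc
      rcases h.rail_b3 hB hF with h6 | h6 <;> simp at h6
    · by_cases hc' : α' = α₀
      · exfalso
        have hB : Bs F α' t' := (hα _ _).2 hc'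
        rcases h.rail_t1 hB hF.symm with h6 | h6 <;> simp at h6
      · simp only [lab, if_neg hc, if_neg hc']
        exact Equiv.Perm.SameCycle.refl _ _
  | rail α t =>
    by_cases hc : α = α₀
    · simp only [lab, if_pos hc]
      exact Equiv.Perm.SameCycle.refl _ _
    · exfalso
      have hB : ¬ Bs F α t := fun hB => hc ((hα _ _).1 hB)
      rcases h.thread_b1 hB hF with h6 | h6 <;> simp at h6
  | exit α t ht =>
    by_cases hc : α = α₀
    · exfalso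
      have hB : Bs F α t := (hα _ _).2 hc
      rcases h.rail_b3 hB hF with h6 | h6 <;> simp at h6
    · simp only [lab, if_neg hc]
      exact Equiv.Perm.SameCycle.refl _ _
  | qz t ht k hk =>
    simp only [lab, ht]
    exact Equiv.Perm.SameCycle.refl _ _
  | zz k k' _ => exact Equiv.Perm.SameCycle.refl _ _
  | zt k hk α t ht =>
    by_cases hc : α = α₀
    · exfalso
      have hB : Bs F α t := (hα _ _).2 hc
      rcases h.rail_t1 hB hF.symm with h6 | h6 <;> simp at h6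
    · simp only [lab, if_neg hc]
      exact Equiv.Perm.SameCycle.refl _ _

/-- A Hamilton cycle determines the sign of the permutation. -/
theorem HC.sign (hs : 1 ≤ s) (hL : 2 ≤ L) (h : HC σ F) :
    Equiv.Perm.sign σ = -(-1) ^ (s + 1) := by
  obtain ⟨α, hα⟩ := h.unique hs hL
  have q0 : Fin L := ⟨0, by omega⟩
  have hall : ∀ i j : Fin (s + 1), (α.1 * σ).SameCycle i j := by
    intro i j
    have := h.conn {v | (α.1 * σ).SameCycle i (lab α v)}
      ⟨Hv.st i q0, Equiv.Perm.SameCycle.refl _ _⟩ ?_ (Hv.st j q0)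
    · exact this
    · intro u v hu huv
      have h3 : (α.1 * σ).SameCycle (lab α u) (lab α v) := by
        rcases h.le huv with h4 | h4
        · exact h.lab_R hα h4 huv
        · exact (h.lab_R hα h4 huv.symm).symm
      exact Equiv.Perm.SameCycle.trans hu h3
  have h01 : (0 : Fin (s + 1)) ≠ Fin.last s := by
    intro h1
    have := congrArg Fin.val h1
    simp only [Fin.val_zero, Fin.val_last] at this
    omega
  have hmove : ∀ i, (α.1 * σ) i ≠ i := by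
    intro i hi
    have h1 : i = 0 := (hall i 0).eq_of_left hi
    have h2 : i = Fin.last s := (hall i _).eq_of_left hi
    exact h01 (h1.symm.trans h2)
  have hcyc : (α.1 * σ).IsCycle := ⟨0, hmove 0, fun y _ => hall 0 y⟩
  have hsup : (α.1 * σ).support = univ := by
    ext i
    simp only [Equiv.Perm.mem_support, mem_univ, iff_true]
    exact hmove i
  have h5 := hcyc.sign
  rw [hsup, Finset.card_univ, Fintype.card_fin, Equiv.Perm.sign_mul,
    Equiv.Perm.mem_alternatingGroup.1 α.2, one_mul] at h5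
  exact h5

end Pool.Agent.Q210.HR
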